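import Pool.Agent.H141R2.FS.Tern

/-!
# Classification modulo fifteen
-/

set_option autoImplicit false
set_option maxRecDepth 100000

namespace Pool.Agent.H141R2.FS

theorem d3 (w : ℤ) : 3 ∣ w ↔ (5 : ZMod 15) * (w : ZMod 15) = 0 := by
  have h : (5 : ZMod 15) * (w : ZMod 15) = ((5 * w : ℤ) : ZMod 15) := by push_cast; rfl
  rw [h, ZMod.intCast_zmod_eq_zero_iff_dvd]
  push_cast
  omega

theorem d5 (w : ℤ) : 5 ∣ w ↔ (3 : ZMod 15) * (w : ZMod 15) = 0 := by
  have h : (3 : ZMod 15) * (w : ZMod 15) = ((3 * w : ℤ) : ZMod 15) := by push_cast; rfl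
  rw [h, ZMod.intCast_zmod_eq_zero_iff_dvd]
  push_cast
  omega

theorem d15 (w : ℤ) : 15 ∣ w ↔ (w : ZMod 15) = 0 := by
  rw [ZMod.intCast_zmod_eq_zero_iff_dvd]
  norm_num

/-- one of the four sign patterns for `(x, z), y` -/
def G1 (s t x y z : ZMod 15) : Prop := 5 * (x + s * z + t * y) = 0 ∧ 3 * (2 * x + s * z) = 0

instance (s t x y z : ZMod 15) : Decidable (G1 s t x y z) := by unfold G1; infer_instance

def G2 (x y z : ZMod 15) : Prop := G1 1 1 x y z ∨ G1 1 (-1) x y z ∨ G1 (-1) 1 x y z ∨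
  G1 (-1) (-1) x y z ∨ G1 1 1 y x z ∨ G1 1 (-1) y x z ∨ G1 (-1) 1 y x z ∨ G1 (-1) (-1) y x z

instance (x y z : ZMod 15) : Decidable (G2 x y z) := by unfold G2; infer_instance

theorem gd_of_G2 {x y z : ℤ} (h : G2 (x : ZMod 15) y z) : Gd x y z := by
  have key : ∀ s t x y z : ℤ, G1 s t (x : ZMod 15) y z → 3 ∣ x + s * z + t * y ∧ 5 ∣ 2 * x + s * z := by
    intro s t x y z h
    rw [d3, d5]
    push_cast
    exact h
  rcases h with h | h | h | h | h | h | h | h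
  · exact ⟨1, 1, Or.inl rfl, Or.inl rfl, Or.inl (key 1 1 x y z (by push_cast; exact h))⟩
  · exact ⟨1, -1, Or.inl rfl, Or.inr rfl, Or.inl (key 1 (-1) x y z (by push_cast; exact h))⟩
  · exact ⟨-1, 1, Or.inr rfl, Or.inl rfl, Or.inl (key (-1) 1 x y z (by push_cast; exact h))⟩
  · exact ⟨-1, -1, Or.inr rfl, Or.inr rfl, Or.inl (key (-1) (-1) x y z (by push_cast; exact h))⟩
  · exact ⟨1, 1, Or.inl rfl, Or.inl rfl, Or.inr (key 1 1 y x z (by push_cast; exact h))⟩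
  · exact ⟨1, -1, Or.inl rfl, Or.inr rfl, Or.inr (key 1 (-1) y x z (by push_cast; exact h))⟩
  · exact ⟨-1, 1, Or.inr rfl, Or.inl rfl, Or.inr (key (-1) 1 y x z (by push_cast; exact h))⟩
  · exact ⟨-1, -1, Or.inr rfl, Or.inr rfl, Or.inr (key (-1) (-1) y x z (by push_cast; exact h))⟩

/-- norm condition -/
def NC (x y z : ZMod 15) : Prop := 5 * (x * x + y * y + z * z - 2) = 0 ∧
  (3 * (x * x + y * y + z * z - 1) = 0 ∨ 3 * (x * x + y * y + z * z - 4) = 0)

instance (x y z : ZMod 15) : Decidable (NC x y z) := by unfold NC; infer_instance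

def G3 (s t x y z : ZMod 15) : Prop := s * y - 3 * x = 0 ∧ t * z - 2 * x = 0 ∧ 5 * x ≠ 0

instance (s t x y z : ZMod 15) : Decidable (G3 s t x y z) := by unfold G3; infer_instance

def G4 (x y z : ZMod 15) : Prop := G3 1 1 x y z ∨ G3 1 (-1) x y z ∨ G3 (-1) 1 x y z ∨
  G3 (-1) (-1) x y z ∨ G3 1 1 y x z ∨ G3 1 (-1) y x z ∨ G3 (-1) 1 y x z ∨ G3 (-1) (-1) y x z

instance (x y z : ZMod 15) : Decidable (G4 x y z) := by unfold G4; infer_instance

theorem cls : ∀ x y z : ZMod 15, NC x y z → G2 x y z ∨ (3 * x = 0 ∧ 3 * y = 0) ∨ G4 x y z := by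
  decide +kernel

theorem cls_odd : ∀ x y z : ZMod 15, NC x y z → G2 x y z ∨ G2 x z y ∨ G2 y z x := by
  decide +kernel

/-- after one reflection of a vector with two coordinates divisible by five -/
theorem cls_five : ∀ x y z : ZMod 15, 5 * (x * x + y * y + z * z - 2) = 0 →
    (3 * (z - 2 * x) = 0 ∨ 3 * (z + 2 * x) = 0) → (3 * (z - 2 * y) = 0 ∨ 3 * (z + 2 * y) = 0) →
    G2 x y z := by
  decide +kernel

end Pool.Agent.H141R2.FS
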