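import Pool.Agent.H141R2.FS.Rep

/-!
# Four squares with prescribed `x + 2 y + 5 z`
-/

set_option autoImplicit false

namespace Pool.Agent.H141R2.FS

theorem choose_sign {u p : ℤ} (h2 : u ^ 2 % 2 = p ^ 2 % 2) (h3 : u ^ 2 % 3 = p ^ 2 % 3) :
    ∃ s : ℤ, (s = 1 ∨ s = -1) ∧ 6 ∣ p - s * u := by
  have e2 : (u - p) % 2 = 0 := by
    rcases (by omega : u % 2 = 0 ∨ u % 2 = 1) with a | a <;>
      rcases (by omega : p % 2 = 0 ∨ p % 2 = 1) with b | b <;>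
      simp [pow_two, Int.mul_emod, a, b] at h2 <;> omega
  have e3 : 3 ∣ p - u ∨ 3 ∣ p + u := by
    rcases (by omega : u % 3 = 0 ∨ u % 3 = 1 ∨ u % 3 = 2) with a | a | a <;>
      rcases (by omega : p % 3 = 0 ∨ p % 3 = 1 ∨ p % 3 = 2) with b | b | b <;>
      simp [pow_two, Int.mul_emod, a, b] at h3 <;> omega
  rcases e3 with h | h
  · exact ⟨1, Or.inl rfl, by omega⟩
  · exact ⟨-1, Or.inr rfl, by omega⟩

theorem choose_sign5 {a p : ℤ} (h5 : a ^ 2 % 5 = (4 * p ^ 2) % 5) :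
    ∃ s : ℤ, (s = 1 ∨ s = -1) ∧ 5 ∣ s * a - 2 * p := by
  have e : 5 ∣ a - 2 * p ∨ 5 ∣ a + 2 * p := by
    rcases (by omega : a % 5 = 0 ∨ a % 5 = 1 ∨ a % 5 = 2 ∨ a % 5 = 3 ∨ a % 5 = 4)
      with b | b | b | b | b <;>
      rcases (by omega : p % 5 = 0 ∨ p % 5 = 1 ∨ p % 5 = 2 ∨ p % 5 = 3 ∨ p % 5 = 4)
        with c | c | c | c | c <;>
      simp [pow_two, Int.mul_emod, b, c] at h5 <;> omega
  rcases e with h | h
  · exact ⟨1, Or.inl rfl, by omega⟩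
  · exact ⟨-1, Or.inr rfl, by omega⟩

theorem rep_int {n p u a w : ℤ} (hp : 0 < p) (h1 : 29 * n ≤ p ^ 2)
    (h : 5 * u ^ 2 + 6 * a ^ 2 + 30 * w ^ 2 = 30 * n - p ^ 2) :
    ∃ x y z w : ℤ, 0 ≤ x ∧ 0 ≤ y ∧ 0 ≤ z ∧ 0 ≤ w ∧ n = x ^ 2 + y ^ 2 + z ^ 2 + w ^ 2 ∧
      x + 2 * y + 5 * z = p := by
  obtain ⟨s, hs, h6⟩ := choose_sign (u := u) (p := p) (by omega) (by omega)
  obtain ⟨t, ht, h5⟩ := choose_sign5 (a := a) (p := p) (by omega)
  have hsu : (s * u) ^ 2 = u ^ 2 := by rcases hs with rfl | rfl <;> ring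
  have hta : (t * a) ^ 2 = a ^ 2 := by rcases ht with rfl | rfl <;> ring
  set U := s * u with hU
  set A := t * a with hA
  obtain ⟨z, hz⟩ := h6
  -- S = (p + 5 U) / 6 = p - 5 z
  set S := p - 5 * z with hS
  have hS5 : 5 ∣ S + 2 * A := by omega
  have hS5' : 5 ∣ 2 * S - A := by omega
  obtain ⟨x, hx⟩ := hS5
  obtain ⟨y, hy⟩ := hS5'
  have eS : S = x + 2 * y := by omega
  have eA : A = 2 * x - y := by omega
  have eP : p = x + 2 * y + 5 * z := by omega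
  have eU : U = x + 2 * y - z := by omega
  have hn : n = x ^ 2 + y ^ 2 + z ^ 2 + w ^ 2 := by
    have h' : 5 * U ^ 2 + 6 * A ^ 2 + 30 * w ^ 2 = 30 * n - p ^ 2 := by rw [hsu, hta]; exact h
    rw [eU, eA, eP] at h'
    have : 30 * n = 30 * (x ^ 2 + y ^ 2 + z ^ 2 + w ^ 2) := by linear_combination -h'
    omega
  refine ⟨x, y, z, |w|, ?_, ?_, ?_, abs_nonneg w, by rw [sq_abs]; exact hn, eP.symm⟩
  · by_contra hc
    push Not at hc
    have h7 : p < 2 * y + 5 * z := by omega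
    have h8 : p ^ 2 < (2 * y + 5 * z) ^ 2 := by nlinarith
    nlinarith [sq_nonneg (5 * y - 2 * z), sq_nonneg x, sq_nonneg w]
  · by_contra hc
    push Not at hc
    have h7 : p < x + 5 * z := by omega
    have h8 : p ^ 2 < (x + 5 * z) ^ 2 := by nlinarith
    nlinarith [sq_nonneg (5 * x - z), sq_nonneg y, sq_nonneg w, sq_nonneg x, sq_nonneg z]
  · by_contra hc
    push Not at hc
    have h7 : p < x + 2 * y := by omega
    have h8 : p ^ 2 < (x + 2 * y) ^ 2 := by nlinarith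
    nlinarith [sq_nonneg (2 * x - y), sq_nonneg y, sq_nonneg w, sq_nonneg x, sq_nonneg z]

/-- For `4 ∤ n` every integer `p` coprime to `30` with `29 n ≤ p² ≤ 30 n` is the value of
`x + 2 y + 5 z` at a representation of `n` as a sum of four squares of natural numbers. -/
theorem rep {n p : ℕ} (h4 : ¬ 4 ∣ n) (hp : Nat.Coprime p 30) (h1 : 29 * n ≤ p ^ 2)
    (h2 : p ^ 2 ≤ 30 * n) :
    ∃ x y z w : ℕ, n = x ^ 2 + y ^ 2 + z ^ 2 + w ^ 2 ∧ x + 2 * y + 5 * z = p := by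
  have hp2 : p % 2 ≠ 0 := by
    intro h
    have := Nat.dvd_gcd (Nat.dvd_of_mod_eq_zero h) (by norm_num : 2 ∣ 30)
    rw [hp] at this
    norm_num at this
  have hp3 : p % 3 ≠ 0 := by
    intro h
    have := Nat.dvd_gcd (Nat.dvd_of_mod_eq_zero h) (by norm_num : 3 ∣ 30)
    rw [hp] at this
    norm_num at this
  have hp5 : p % 5 ≠ 0 := by
    intro h
    have := Nat.dvd_gcd (Nat.dvd_of_mod_eq_zero h) (by norm_num : 5 ∣ 30)
    rw [hp] at this
    norm_num at this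
  have hq8 : p ^ 2 % 8 = 1 := by
    rcases (by omega : p % 8 = 1 ∨ p % 8 = 3 ∨ p % 8 = 5 ∨ p % 8 = 7) with h | h | h | h <;>
      simp [pow_two, Nat.mul_mod, h]
  have hq3 : p ^ 2 % 3 = 1 := by
    rcases (by omega : p % 3 = 1 ∨ p % 3 = 2) with h | h <;> simp [pow_two, Nat.mul_mod, h]
  have hq5 : p ^ 2 % 5 = 1 ∨ p ^ 2 % 5 = 4 := by
    rcases (by omega : p % 5 = 1 ∨ p % 5 = 2 ∨ p % 5 = 3 ∨ p % 5 = 4) with h | h | h | h <;>
      simp [pow_two, Nat.mul_mod, h]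
  set Q := p ^ 2 with hQ
  obtain ⟨u, a, w, h⟩ := ternary (30 * n - Q) (by omega) (by omega) (by omega)
  have hp0 : 0 < p := Nat.pos_of_ne_zero (by rintro rfl; simp at hp3)
  rw [Nat.cast_sub h2] at h
  push_cast at h
  obtain ⟨x, y, z, w, hx, hy, hz, hw, h5, h6⟩ := rep_int (n := n) (p := p) (u := u) (a := a)
    (w := w) (by exact_mod_cast hp0) (by rw [hQ] at h1; exact_mod_cast h1) (by
      rw [h, hQ]; push_cast; ring)
  lift x to ℕ using hx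
  lift y to ℕ using hy
  lift z to ℕ using hz
  lift w to ℕ using hw
  exact ⟨x, y, z, w, by exact_mod_cast h5, by exact_mod_cast h6⟩

end Pool.Agent.H141R2.FS
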