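import Pool.Agent.H141R2.FS.Cls

/-!
# Representations by `5 u² + 6 a² + 30 w²` and four squares with prescribed `x + 2 y + 5 z`
-/

set_option autoImplicit false

namespace Pool.Agent.H141R2.FS

open Pool.Agent.H591R2

theorem nc_of {x y z : ℤ} (h3 : 3 ∣ x ^ 2 + y ^ 2 + z ^ 2 - 2)
    (h5 : 5 ∣ x ^ 2 + y ^ 2 + z ^ 2 - 1 ∨ 5 ∣ x ^ 2 + y ^ 2 + z ^ 2 - 4) :
    NC (x : ZMod 15) y z := by
  refine ⟨?_, ?_⟩
  · have := (d3 _).1 h3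
    push_cast at this
    rw [← this]; ring
  · rcases h5 with h | h
    · left
      have := (d5 _).1 h
      push_cast at this
      rw [← this]; ring
    · right
      have := (d5 _).1 h
      push_cast at this
      rw [← this]; ring

theorem stuck_sym {x y z s t : ℤ} (hs : s = 1 ∨ s = -1) (ht : t = 1 ∨ t = -1)
    (h : G3 (s : ZMod 15) t x y z) (h2x : 2 ∣ x)
    (h2y : 2 ∣ y) (h2z : ¬ 2 ∣ z) : Rm (x ^ 2 + y ^ 2 + z ^ 2) := by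
  obtain ⟨h1, h2, h3⟩ := h
  have e1 : 15 ∣ s * y - 3 * x := by rw [d15]; push_cast; exact h1
  have e2 : 15 ∣ t * z - 2 * x := by rw [d15]; push_cast; exact h2
  have e3 : ¬ 3 ∣ x := by rw [d3]; exact h3
  have h4 := stuck' e1 e2 h2x (by rcases hs with rfl | rfl <;> omega)
    (by rcases ht with rfl | rfl <;> omega) e3
  have h5 : x ^ 2 + (s * y) ^ 2 + (t * z) ^ 2 = x ^ 2 + y ^ 2 + z ^ 2 := by
    rcases hs with rfl | rfl <;> rcases ht with rfl | rfl <;> ring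
  rwa [h5] at h4

theorem stuck_G4 {x y z : ℤ} (h : G4 (x : ZMod 15) y z) (h2x : 2 ∣ x)
    (h2y : 2 ∣ y) (h2z : ¬ 2 ∣ z) : Rm (x ^ 2 + y ^ 2 + z ^ 2) := by
  have hsw : y ^ 2 + x ^ 2 + z ^ 2 = x ^ 2 + y ^ 2 + z ^ 2 := by ring
  rcases h with h | h | h | h | h | h | h | h
  · exact stuck_sym (s := 1) (t := 1) (Or.inl rfl) (Or.inl rfl) (by push_cast; exact h) h2x h2y h2z
  · exact stuck_sym (s := 1) (t := -1) (Or.inl rfl) (Or.inr rfl) (by push_cast; exact h) h2x h2y h2z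
  · exact stuck_sym (s := -1) (t := 1) (Or.inr rfl) (Or.inl rfl) (by push_cast; exact h) h2x h2y h2z
  · exact stuck_sym (s := -1) (t := -1) (Or.inr rfl) (Or.inr rfl) (by push_cast; exact h) h2x h2y
      h2z
  · rw [← hsw]
    exact stuck_sym (s := 1) (t := 1) (Or.inl rfl) (Or.inl rfl) (by push_cast; exact h) h2y h2x h2z
  · rw [← hsw]
    exact stuck_sym (s := 1) (t := -1) (Or.inl rfl) (Or.inr rfl) (by push_cast; exact h) h2y h2x h2z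
  · rw [← hsw]
    exact stuck_sym (s := -1) (t := 1) (Or.inr rfl) (Or.inl rfl) (by push_cast; exact h) h2y h2x h2z
  · rw [← hsw]
    exact stuck_sym (s := -1) (t := -1) (Or.inr rfl) (Or.inr rfl) (by push_cast; exact h) h2y h2x
      h2z

theorem five_case {x y z : ℤ} (hx : 5 ∣ x) (hy : 5 ∣ y) (h2x : 2 ∣ x) (h2y : 2 ∣ y)
    (h3 : 3 ∣ x ^ 2 + y ^ 2 + z ^ 2 - 2) : Rm (x ^ 2 + y ^ 2 + z ^ 2) := by
  -- a reflection
  have hsq : ∀ v : ℤ, v ^ 2 % 3 = 0 ∧ v % 3 = 0 ∨ v ^ 2 % 3 = 1 ∧ (v % 3 = 1 ∨ v % 3 = 2) := by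
    intro v
    rcases (by omega : v % 3 = 0 ∨ v % 3 = 1 ∨ v % 3 = 2) with h | h | h <;>
      simp [pow_two, Int.mul_emod, h]
  obtain ⟨e, f, he, hf, k, hk⟩ : ∃ e f : ℤ, (e = 1 ∨ e = -1) ∧ (f = 1 ∨ f = -1) ∧
      ∃ k, x + e * y + f * z = 3 * k := by
    have h1 : (3 ∣ x + 1 * y + 1 * z ∨ 3 ∣ x + 1 * y + (-1) * z) ∨
        (3 ∣ x + (-1) * y + 1 * z ∨ 3 ∣ x + (-1) * y + (-1) * z) := by
      rcases hsq x with ⟨a1, a2⟩ | ⟨a1, a2 | a2⟩ <;> rcases hsq y with ⟨b1, b2⟩ | ⟨b1, b2 | b2⟩ <;>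
        rcases hsq z with ⟨c1, c2⟩ | ⟨c1, c2 | c2⟩ <;> omega
    rcases h1 with (h | h) | (h | h)
    · exact ⟨1, 1, Or.inl rfl, Or.inl rfl, h⟩
    · exact ⟨1, -1, Or.inl rfl, Or.inr rfl, h⟩
    · exact ⟨-1, 1, Or.inr rfl, Or.inl rfl, h⟩
    · exact ⟨-1, -1, Or.inr rfl, Or.inr rfl, h⟩
  have hn := refl_norm he hf hk
  rw [← hn]
  apply rm_of_gd (by rcases he with rfl | rfl <;> omega)
  apply gd_of_G2
  apply cls_five
  · have h4 : 3 ∣ (x - 2 * k) ^ 2 + (y - 2 * k * e) ^ 2 + (z - 2 * k * f) ^ 2 - 2 := by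
      rw [hn]; exact h3
    have := (d3 _).1 h4
    push_cast at this ⊢
    rw [← this]; ring
  · have h5 : 5 ∣ (z - 2 * k * f) - 2 * (x - 2 * k) ∨ 5 ∣ (z - 2 * k * f) + 2 * (x - 2 * k) := by
      rcases he with rfl | rfl <;> rcases hf with rfl | rfl <;> omega
    rcases h5 with h5 | h5
    · left
      have := (d5 _).1 h5
      push_cast at this ⊢
      exact this
    · right
      have := (d5 _).1 h5
      push_cast at this ⊢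
      exact this
  · have h5 : 5 ∣ (z - 2 * k * f) - 2 * (y - 2 * k * e) ∨
        5 ∣ (z - 2 * k * f) + 2 * (y - 2 * k * e) := by
      rcases he with rfl | rfl <;> rcases hf with rfl | rfl <;> omega
    rcases h5 with h5 | h5
    · left
      have := (d5 _).1 h5
      push_cast at this ⊢
      exact this
    · right
      have := (d5 _).1 h5
      push_cast at this ⊢
      exact this

theorem rm_even {x y z : ℤ} (h2x : 2 ∣ x) (h2y : 2 ∣ y) (h2z : ¬ 2 ∣ z)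
    (h3 : 3 ∣ x ^ 2 + y ^ 2 + z ^ 2 - 2)
    (h5 : 5 ∣ x ^ 2 + y ^ 2 + z ^ 2 - 1 ∨ 5 ∣ x ^ 2 + y ^ 2 + z ^ 2 - 4) :
    Rm (x ^ 2 + y ^ 2 + z ^ 2) := by
  rcases cls _ _ _ (nc_of h3 h5) with h | ⟨h1, h2⟩ | h
  · exact rm_of_gd (by omega) (gd_of_G2 h)
  · exact five_case ((d5 x).2 h1) ((d5 y).2 h2) h2x h2y h3
  · exact stuck_G4 h h2x h2y h2z

theorem rm_odd {x y z : ℤ} (h2x : ¬ 2 ∣ x) (h2y : ¬ 2 ∣ y) (h2z : ¬ 2 ∣ z)
    (h3 : 3 ∣ x ^ 2 + y ^ 2 + z ^ 2 - 2)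
    (h5 : 5 ∣ x ^ 2 + y ^ 2 + z ^ 2 - 1 ∨ 5 ∣ x ^ 2 + y ^ 2 + z ^ 2 - 4) :
    Rm (x ^ 2 + y ^ 2 + z ^ 2) := by
  rcases cls_odd _ _ _ (nc_of h3 h5) with h | h | h
  · exact rm_of_gd (by omega) (gd_of_G2 h)
  · have := rm_of_gd (by omega) (gd_of_G2 h)
    have e : x ^ 2 + z ^ 2 + y ^ 2 = x ^ 2 + y ^ 2 + z ^ 2 := by ring
    rwa [e] at this
  · have := rm_of_gd (by omega) (gd_of_G2 h)
    have e : y ^ 2 + z ^ 2 + x ^ 2 = x ^ 2 + y ^ 2 + z ^ 2 := by ring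
    rwa [e] at this

/-- parities of squares modulo four -/
theorem sq4 (v : ℤ) : v ^ 2 % 4 = 0 ∧ 2 ∣ v ∨ v ^ 2 % 4 = 1 ∧ ¬ 2 ∣ v := by
  rcases (by omega : v % 4 = 0 ∨ v % 4 = 1 ∨ v % 4 = 2 ∨ v % 4 = 3) with h | h | h | h
  · left; exact ⟨by simp [pow_two, Int.mul_emod, h], by omega⟩
  · right; exact ⟨by simp [pow_two, Int.mul_emod, h], by omega⟩
  · left; exact ⟨by simp [pow_two, Int.mul_emod, h], by omega⟩
  · right; exact ⟨by simp [pow_two, Int.mul_emod, h], by omega⟩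

/-- **The ternary form `5 u² + 6 a² + 30 w²`.**  It represents every positive integer `m` with
`m = 2 mod 3`, `m = ±1 mod 5` and (`m = 1 mod 4` or `m = 3 mod 8`). -/
theorem ternary (m : ℕ) (h3 : m % 3 = 2) (h5 : m % 5 = 1 ∨ m % 5 = 4)
    (h8 : m % 4 = 1 ∨ m % 8 = 3) : Rm m := by
  rcases h8 with h8 | h8
  · obtain ⟨x, y, z, h⟩ := three_squares_one h8
    have e3 : 3 ∣ x ^ 2 + y ^ 2 + z ^ 2 - 2 := by rw [h]; omega
    have e5 : 5 ∣ x ^ 2 + y ^ 2 + z ^ 2 - 1 ∨ 5 ∣ x ^ 2 + y ^ 2 + z ^ 2 - 4 := by rw [h]; omega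
    rcases sq4 x with ⟨a1, a2⟩ | ⟨a1, a2⟩ <;> rcases sq4 y with ⟨b1, b2⟩ | ⟨b1, b2⟩ <;>
      rcases sq4 z with ⟨c1, c2⟩ | ⟨c1, c2⟩ <;> try (exfalso; omega)
    · rw [← h]; exact rm_even a2 b2 c2 e3 e5
    · have e : x ^ 2 + y ^ 2 + z ^ 2 = x ^ 2 + z ^ 2 + y ^ 2 := by ring
      rw [← h, e]
      rw [e] at e3 e5
      exact rm_even a2 c2 b2 e3 e5
    · have e : x ^ 2 + y ^ 2 + z ^ 2 = y ^ 2 + z ^ 2 + x ^ 2 := by ring
      rw [← h, e]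
      rw [e] at e3 e5
      exact rm_even b2 c2 a2 e3 e5
  · obtain ⟨x, y, z, h⟩ := three_squares h8
    have e3 : 3 ∣ x ^ 2 + y ^ 2 + z ^ 2 - 2 := by rw [h]; omega
    have e5 : 5 ∣ x ^ 2 + y ^ 2 + z ^ 2 - 1 ∨ 5 ∣ x ^ 2 + y ^ 2 + z ^ 2 - 4 := by rw [h]; omega
    rcases sq4 x with ⟨a1, a2⟩ | ⟨a1, a2⟩ <;> rcases sq4 y with ⟨b1, b2⟩ | ⟨b1, b2⟩ <;>
      rcases sq4 z with ⟨c1, c2⟩ | ⟨c1, c2⟩ <;> try (exfalso; omega)
    rw [← h]; exact rm_odd a2 b2 c2 e3 e5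

end Pool.Agent.H141R2.FS
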