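import Pool.Agent.H141R2.FS.WB
import Pool.Agent.Helper742.Brun
import Pool.Agent.H410R2.Iface2

/-!
# Residue classes for the sieve
-/

set_option autoImplicit false

open Finset

namespace Pool.Agent.H141R2.FS

/-- `(n - 2)(n + 4)(n + 10)` in absolute value -/
def ff (n : ℕ) : ℕ := (((n : ℤ) - 2) * (n + 4) * (n + 10)).natAbs

theorem dvd_ff (l n : ℕ) : l ∣ ff n ↔ (l : ℤ) ∣ ((n : ℤ) - 2) * (n + 4) * (n + 10) := by
  unfold ff
  rw [Int.natCast_dvd]

theorem dvd_ff_mod {l m : ℕ} (hl : l ∣ m) (n : ℕ) : l ∣ ff (n % m) ↔ l ∣ ff n := by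
  rw [dvd_ff, dvd_ff]
  have h1 : (l : ℤ) ∣ (n : ℤ) - (n % m : ℕ) := by
    have h2 : (m : ℤ) ∣ (n : ℤ) - (n % m : ℕ) := by
      refine ⟨((n / m : ℕ) : ℤ), ?_⟩
      have := Nat.div_add_mod n m
      have h3 : ((m * (n / m) + n % m : ℕ) : ℤ) = n := by rw [this]
      push_cast at h3 ⊢
      linarith
    exact (Int.natCast_dvd_natCast.2 hl).trans h2
  have h4 : (l : ℤ) ∣ (((n : ℤ) - 2) * (n + 4) * (n + 10)) -
      ((((n % m : ℕ) : ℤ) - 2) * ((n % m : ℕ) + 4) * ((n % m : ℕ) + 10)) := by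
    obtain ⟨t, ht⟩ := h1
    have h5 : (n : ℤ) = (n % m : ℕ) + l * t := by linarith
    rw [h5]
    set y : ℤ := ((n % m : ℕ) : ℤ)
    refine ⟨t * ((y + 4) * (y + 10)) + (y + l * t - 2) * t * (y + 10) +
      (y + l * t - 2) * (y + l * t + 4) * t, ?_⟩
    ring
  constructor
  · intro h; exact (Int.dvd_iff_dvd_of_dvd_sub h4).2 h
  · intro h; exact (Int.dvd_iff_dvd_of_dvd_sub h4).1 h

theorem dvd_ff_prime {l : ℕ} (hl : l.Prime) (n : ℕ) :
    l ∣ ff n ↔ (l : ℤ) ∣ (n : ℤ) - 2 ∨ (l : ℤ) ∣ (n : ℤ) + 4 ∨ (l : ℤ) ∣ (n : ℤ) + 10 := by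
  rw [dvd_ff]
  have hp : Prime (l : ℤ) := Nat.prime_iff_prime_int.1 hl
  rw [hp.dvd_mul, hp.dvd_mul]
  tauto

theorem count_roots {l : ℕ} (hl : l.Prime) (h8 : 10 < l) :
    ∑ n ∈ range l, (if l ∣ ff n then (1 : ℝ) else 0) = 3 := by
  have h12 : l ≠ 12 := by rintro rfl; revert hl; decide
  rw [sum_boole]
  have : (range l).filter (fun n => l ∣ ff n) = {2, l - 4, l - 10} := by
    ext n
    rw [mem_filter, mem_range, dvd_ff_prime hl, mem_insert, mem_insert, mem_singleton]
    constructor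
    · rintro ⟨h1, h2 | h2 | h2⟩
      · left
        obtain ⟨t, ht⟩ := h2
        have : t = 0 := by
          by_contra hne
          rcases lt_or_gt_of_ne hne with h | h
          · nlinarith
          · nlinarith
        subst this
        omega
      · right; left
        obtain ⟨t, ht⟩ := h2
        have h3 : 0 < t := by nlinarith
        have h4 : t < 2 := by nlinarith
        have : t = 1 := by omega
        subst this
        omega
      · right; right
        obtain ⟨t, ht⟩ := h2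
        have h3 : 0 < t := by nlinarith
        have h4 : t < 2 := by nlinarith
        have : t = 1 := by omega
        subst this
        omega
    · rintro (h | h | h)
      · subst h; exact ⟨by omega, Or.inl (by norm_num)⟩
      · refine ⟨by omega, Or.inr (Or.inl ?_)⟩
        have : (n : ℤ) + 4 = l := by omega
        rw [this]
      · refine ⟨by omega, Or.inr (Or.inr ?_)⟩
        have : (n : ℤ) + 10 = l := by omega
        rw [this]
  rw [this, card_insert_of_notMem, card_insert_of_notMem, card_singleton]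
  · norm_num
  · rw [mem_singleton]; omega
  · rw [mem_insert, mem_singleton]; omega

/-- the residue classes -/
def RD (D : Finset ℕ) : Finset ℕ :=
  (range (210 * ∏ l ∈ D, l)).filter (fun r => r % 210 = 13 ∧ ∀ l ∈ D, l ∣ ff r)

theorem big {l : ℕ} (hl : l.Prime) (h8 : 8 < l) : 10 < l := by
  rcases (by omega : l = 9 ∨ l = 10 ∨ 10 < l) with h | h | h
  · subst h; revert hl; decide
  · subst h; revert hl; decide
  · exact h

theorem cop210 {l : ℕ} (hl : l.Prime) (h8 : 8 < l) : Nat.Coprime 210 l := by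
  rw [Nat.coprime_comm, Nat.Prime.coprime_iff_not_dvd hl]
  intro h
  have h1 : l ∣ 2 * 3 * 5 * 7 := by norm_num; exact h
  rw [hl.dvd_mul, hl.dvd_mul, hl.dvd_mul] at h1
  rcases h1 with ((h1 | h1) | h1) | h1 <;>
    · have := Nat.le_of_dvd (by norm_num) h1
      omega

theorem cop_prod {D : Finset ℕ} (hD : ∀ l ∈ D, l.Prime ∧ 8 < l) :
    Nat.Coprime 210 (∏ l ∈ D, l) :=
  Nat.Coprime.prod_right fun l hl => cop210 (hD l hl).1 (hD l hl).2

theorem card_RD {D : Finset ℕ} (hD : ∀ l ∈ D, l.Prime ∧ 8 < l) :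
    ((RD D).card : ℝ) = 3 ^ D.card := by
  have hq : 0 < ∏ l ∈ D, l := prod_pos fun l hl => (hD l hl).1.pos
  have h1 : ((RD D).card : ℝ) = ∑ n ∈ range (210 * ∏ l ∈ D, l),
      (if n % 210 = 13 then (1 : ℝ) else 0) * ∏ l ∈ D, (if l ∣ ff n then (1 : ℝ) else 0) := by
    unfold RD
    rw [← sum_boole]
    apply sum_congr rfl
    intro n _
    rw [prod_ite_zero]
    split_ifs with h1 h2 h3 h3 h2 h3 h3 <;> simp_all
  rw [h1, Pool.Agent.Helper742.sum_crt 210 _ (by norm_num) hq (cop_prod hD)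
    (fun n => if n % 210 = 13 then (1 : ℝ) else 0)
    (fun n => ∏ l ∈ D, (if l ∣ ff n then (1 : ℝ) else 0))]
  · rw [Pool.Agent.Helper742.sum_prod_period D (fun l hl => (hD l hl).1)
      (fun l n => if l ∣ ff n then (1 : ℝ) else 0)]
    · rw [prod_congr rfl (fun l hl => count_roots (hD l hl).1 (big (hD l hl).1 (hD l hl).2)),
        prod_const]
      have h2 : ∑ n ∈ range 210, (if n % 210 = 13 then (1 : ℝ) else 0) = 1 := by
        rw [sum_boole]
        have : (range 210).filter (fun n => n % 210 = 13) = {13} := by decide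
        rw [this]; simp
      rw [h2, one_mul]
    · intro l _ n
      simp only [dvd_ff_mod (dvd_refl l)]
  · intro n
    simp
  · intro n
    apply prod_congr rfl
    intro l hl
    simp only [dvd_ff_mod (dvd_prod_of_mem (fun l => l) hl)]

theorem cop_RD {D : Finset ℕ} (hD : ∀ l ∈ D, l.Prime ∧ 8 < l) {r : ℕ} (hr : r ∈ RD D) :
    Nat.Coprime r (210 * ∏ l ∈ D, l) := by
  unfold RD at hr
  rw [mem_filter] at hr
  obtain ⟨-, h1, h2⟩ := hr
  apply Nat.Coprime.mul_right
  · have h3 : Nat.gcd r 210 = Nat.gcd 13 210 := by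
      rw [← h1, Nat.gcd_comm r 210, Nat.gcd_rec, Nat.gcd_comm]
    show Nat.gcd r 210 = 1
    rw [h3]
    norm_num
  · apply Nat.Coprime.prod_right
    intro l hl
    have hlp := (hD l hl).1
    have hl8 := (hD l hl).2
    rw [Nat.coprime_comm, Nat.Prime.coprime_iff_not_dvd hlp]
    intro h3
    have h4 := (dvd_ff l r).1 (h2 l hl)
    have h5 : (l : ℤ) ∣ 80 := by
      obtain ⟨t, ht⟩ := h3
      have : (80 : ℤ) = (l : ℤ) * (t * ((l * t) * (l * t) + 12 * (l * t) + 12)) -
          (((l : ℤ) * t - 2) * (l * t + 4) * (l * t + 10)) := by ring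
      rw [this]
      apply dvd_sub (dvd_mul_right _ _)
      rw [ht] at h4
      push_cast at h4
      exact h4
    have h6 : l ∣ 2 * 2 * 2 * 2 * 5 := by
      have : l ∣ 80 := by exact_mod_cast h5
      simpa using this
    rw [hlp.dvd_mul, hlp.dvd_mul, hlp.dvd_mul, hlp.dvd_mul] at h6
    rcases h6 with (((h6 | h6) | h6) | h6) | h6 <;>
      · have := Nat.le_of_dvd (by norm_num) h6
        omega

/-- splitting a sum into residue classes -/
theorem split_classes (D : Finset ℕ) (hD : ∀ l ∈ D, l.Prime ∧ 8 < l) (N : ℕ) (w : ℕ → ℝ) :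
    ∑ n ∈ ((Icc 1 N).filter (fun n => n % 210 = 13)).filter (fun n => ∀ l ∈ D, l ∣ ff n), w n =
    ∑ r ∈ RD D, ∑ n ∈ (Icc 1 N).filter (fun n => n ≡ r [MOD 210 * ∏ l ∈ D, l]), w n := by
  set q := ∏ l ∈ D, l with hq
  have hq0 : 0 < q := prod_pos fun l hl => (hD l hl).1.pos
  have hmaps : ∀ n ∈ ((Icc 1 N).filter (fun n => n % 210 = 13)).filter
      (fun n => ∀ l ∈ D, l ∣ ff n), n % (210 * q) ∈ RD D := by
    intro n hn
    rw [mem_filter, mem_filter] at hn
    unfold RD
    rw [mem_filter, mem_range]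
    refine ⟨Nat.mod_lt _ (by positivity), ?_, fun l hl => ?_⟩
    · rw [Nat.mod_mul_right_mod]; exact hn.1.2
    · rw [dvd_ff_mod ((dvd_prod_of_mem (fun l => l) hl).trans (dvd_mul_left _ _ : q ∣ 210 * q))]
      exact hn.2 l hl
  rw [← sum_fiberwise_of_maps_to hmaps]
  apply sum_congr rfl
  intro r hr
  apply sum_congr _ (fun _ _ => rfl)
  unfold RD at hr
  rw [mem_filter, mem_range] at hr
  ext n
  simp only [mem_filter]
  constructor
  · rintro ⟨⟨⟨h1, h2⟩, h3⟩, h4⟩
    refine ⟨h1, ?_⟩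
    show n % (210 * q) = r % (210 * q)
    rw [h4, Nat.mod_eq_of_lt hr.1]
  · rintro ⟨h1, h2⟩
    have h3 : n % (210 * q) = r := by
      have : n % (210 * q) = r % (210 * q) := h2
      rw [this, Nat.mod_eq_of_lt hr.1]
    refine ⟨⟨⟨h1, ?_⟩, fun l hl => ?_⟩, h3⟩
    · rw [← hr.2.1, ← h3, Nat.mod_mul_right_mod]
    · rw [← dvd_ff_mod ((dvd_prod_of_mem (fun l => l) hl).trans (dvd_mul_left _ _ : q ∣ 210 * q)),
        h3]
      exact hr.2.2 l hl

end Pool.Agent.H141R2.FS
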