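import Pool.Agent.H141R2.FS.TS1
import Pool.Agent.H410R2.MFinal

/-!
# Primes with tent weights in residue classes
-/

set_option autoImplicit false

open Finset

namespace Pool.Agent.H141R2.FS

open Pool.Agent.H410R2 Pool.Agent.H410R2.ED

/-- positive part of `log (X / n)` -/
noncomputable def lp (X : ℝ) (n : ℕ) : ℝ := if (n : ℝ) ≤ X then Real.log (X / n) else 0

/-- the weight -/
noncomputable def tw (X1 Xm X2 : ℝ) (n : ℕ) : ℝ :=
  ArithmeticFunction.vonMangoldt n * (lp X2 n - 2 * lp Xm n + lp X1 n)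

theorem psiLogAP_eq {X : ℝ} (hX : 0 ≤ X) {N : ℕ} (hN : ⌊X⌋₊ ≤ N) (m r : ℕ) :
    psiLogAP X m r = ∑ n ∈ (Icc 1 N).filter (fun n => n ≡ r [MOD m]),
      ArithmeticFunction.vonMangoldt n * lp X n := by
  unfold psiLogAP
  have h1 : ∀ n ∈ (Icc 1 N).filter (fun n => n ≡ r [MOD m]),
      n ∉ (Icc 1 ⌊X⌋₊).filter (fun n => n ≡ r [MOD m]) →
      ArithmeticFunction.vonMangoldt n * lp X n = 0 := by
    intro n hn hn'
    rw [mem_filter, mem_Icc] at hn hn'
    have h2 : ¬ ((n : ℝ) ≤ X) := by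
      intro h
      apply hn'
      exact ⟨⟨hn.1.1, Nat.le_floor h⟩, hn.2⟩
    unfold lp
    rw [if_neg h2, mul_zero]
  rw [← sum_subset _ h1]
  · apply sum_congr rfl
    intro n hn
    rw [mem_filter, mem_Icc] at hn
    have h2 : (n : ℝ) ≤ X := (Nat.le_floor_iff hX).1 hn.1.2
    unfold lp
    rw [if_pos h2]
  · intro n hn
    rw [mem_filter, mem_Icc] at hn ⊢
    exact ⟨⟨hn.1.1, hn.1.2.trans hN⟩, hn.2⟩

/-- the error in a class -/
noncomputable def EE (X : ℝ) (q r : ℕ) : ℝ :=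
  |psiLogAP X (210 * q) r - psiLog1 X / (Nat.totient (210 * q) : ℝ)|

theorem exists_rr (X : ℝ) : ∃ r : ℕ → ℕ, ∀ q, 1 ≤ q → (r q).Coprime (210 * q) ∧
    ∀ s, s < 210 * q → s.Coprime (210 * q) → EE X q s ≤ EE X q (r q) := by
  have h : ∀ q : ℕ, ∃ r : ℕ, 1 ≤ q → r.Coprime (210 * q) ∧
      ∀ s, s < 210 * q → s.Coprime (210 * q) → EE X q s ≤ EE X q r := by
    intro q
    by_cases hq : 1 ≤ q
    · have hne : ((range (210 * q)).filter (fun s => s.Coprime (210 * q))).Nonempty := by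
        refine ⟨1, ?_⟩
        rw [mem_filter, mem_range]
        exact ⟨by omega, Nat.coprime_one_left _⟩
      obtain ⟨r, hr, hmax⟩ := exists_max_image _ (fun s => EE X q s) hne
      rw [mem_filter] at hr
      refine ⟨r, fun _ => ⟨hr.2, fun s hs hsc => hmax s ?_⟩⟩
      rw [mem_filter, mem_range]
      exact ⟨hs, hsc⟩
    · exact ⟨0, fun h => absurd h hq⟩
  choose r hr using h
  exact ⟨r, hr⟩

theorem totient_prod {D : Finset ℕ} (hD : ∀ l ∈ D, l.Prime ∧ 8 < l) :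
    ((Nat.totient (210 * ∏ l ∈ D, l) : ℕ) : ℝ) = 48 * ∏ l ∈ D, ((l : ℝ) - 1) := by
  have h1 : Nat.totient (∏ l ∈ D, l) = ∏ l ∈ D, (l - 1) := by
    induction D using Finset.induction_on with
    | empty => simp
    | insert a D ha ih =>
      rw [prod_insert ha, prod_insert ha, Nat.totient_mul, ih (fun l hl => hD l (mem_insert_of_mem hl)),
        Nat.totient_prime (hD a (mem_insert_self a D)).1]
      apply Nat.Coprime.prod_right
      intro l hl
      rw [Nat.coprime_primes (hD a (mem_insert_self a D)).1 (hD l (mem_insert_of_mem hl)).1]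
      rintro rfl
      exact ha hl
  rw [Nat.totient_mul (cop_prod hD), h1, show Nat.totient 210 = 48 by decide +kernel]
  push_cast
  congr 1
  apply prod_congr rfl
  intro l hl
  rw [Nat.cast_sub (hD l hl).1.one_lt.le]
  simp

theorem err_D {X1 Xm X2 : ℝ} (h1 : 0 ≤ X1) (hm : X1 ≤ Xm) (h2 : Xm ≤ X2)
    (r1 rm r2 : ℕ → ℕ)
    (hr1 : ∀ q, 1 ≤ q → ∀ s, s < 210 * q → s.Coprime (210 * q) → EE X1 q s ≤ EE X1 q (r1 q))
    (hrm : ∀ q, 1 ≤ q → ∀ s, s < 210 * q → s.Coprime (210 * q) → EE Xm q s ≤ EE Xm q (rm q))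
    (hr2 : ∀ q, 1 ≤ q → ∀ s, s < 210 * q → s.Coprime (210 * q) → EE X2 q s ≤ EE X2 q (r2 q))
    {D : Finset ℕ} (hD : ∀ l ∈ D, l.Prime ∧ 8 < l) :
    |(∑ n ∈ ((Icc 1 ⌊X2⌋₊).filter (fun n => n % 210 = 13)).filter (fun n => ∀ l ∈ D, l ∣ ff n),
        tw X1 Xm X2 n) -
      (psiLog1 X2 - 2 * psiLog1 Xm + psiLog1 X1) / 48 * ∏ l ∈ D, (3 / ((l : ℝ) - 1))| ≤
    3 ^ D.card * (EE X2 (∏ l ∈ D, l) (r2 (∏ l ∈ D, l)) + 2 * EE Xm (∏ l ∈ D, l) (rm (∏ l ∈ D, l)) +
      EE X1 (∏ l ∈ D, l) (r1 (∏ l ∈ D, l))) := by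
  set q := ∏ l ∈ D, l with hq
  have hq1 : 1 ≤ q := prod_pos fun l hl => (hD l hl).1.pos
  rw [split_classes D hD]
  have hpos : (0 : ℝ) < ∏ l ∈ D, ((l : ℝ) - 1) := by
    apply prod_pos
    intro l hl
    have : (1 : ℝ) < l := by exact_mod_cast (hD l hl).1.one_lt
    linarith
  have hmain : (psiLog1 X2 - 2 * psiLog1 Xm + psiLog1 X1) / 48 * ∏ l ∈ D, (3 / ((l : ℝ) - 1)) =
      ∑ r ∈ RD D, (psiLog1 X2 - 2 * psiLog1 Xm + psiLog1 X1) / (Nat.totient (210 * q) : ℝ) := by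
    rw [sum_const, nsmul_eq_mul, card_RD hD, hq, totient_prod hD, prod_div_distrib, prod_const]
    field_simp
  rw [hmain, ← sum_sub_distrib]
  refine (abs_sum_le_sum_abs _ _).trans ?_
  have hterm : ∀ r ∈ RD D,
      |∑ n ∈ (Icc 1 ⌊X2⌋₊).filter (fun n => n ≡ r [MOD 210 * q]), tw X1 Xm X2 n -
        (psiLog1 X2 - 2 * psiLog1 Xm + psiLog1 X1) / (Nat.totient (210 * q) : ℝ)| ≤
      EE X2 q (r2 q) + 2 * EE Xm q (rm q) + EE X1 q (r1 q) := by
    intro r hr
    have hrc := cop_RD hD hr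
    have hrl : r < 210 * q := by
      unfold RD at hr
      rw [mem_filter, mem_range] at hr
      exact hr.1
    have e1 : ∑ n ∈ (Icc 1 ⌊X2⌋₊).filter (fun n => n ≡ r [MOD 210 * q]), tw X1 Xm X2 n =
        psiLogAP X2 (210 * q) r - 2 * psiLogAP Xm (210 * q) r + psiLogAP X1 (210 * q) r := by
      rw [psiLogAP_eq (h1.trans (hm.trans h2)) (le_refl ⌊X2⌋₊),
        psiLogAP_eq (h1.trans hm) (Nat.floor_mono h2),
        psiLogAP_eq h1 (Nat.floor_mono (hm.trans h2)), mul_sum, ← sum_sub_distrib,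
        ← sum_add_distrib]
      apply sum_congr rfl
      intro n _
      unfold tw
      ring
    rw [e1]
    have e2 : psiLogAP X2 (210 * q) r - 2 * psiLogAP Xm (210 * q) r + psiLogAP X1 (210 * q) r -
        (psiLog1 X2 - 2 * psiLog1 Xm + psiLog1 X1) / (Nat.totient (210 * q) : ℝ) =
        (psiLogAP X2 (210 * q) r - psiLog1 X2 / (Nat.totient (210 * q) : ℝ)) -
        2 * (psiLogAP Xm (210 * q) r - psiLog1 Xm / (Nat.totient (210 * q) : ℝ)) +
        (psiLogAP X1 (210 * q) r - psiLog1 X1 / (Nat.totient (210 * q) : ℝ)) := by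
      ring
    rw [e2]
    have a1 := hr1 q hq1 r hrl hrc
    have a2 := hrm q hq1 r hrl hrc
    have a3 := hr2 q hq1 r hrl hrc
    unfold EE at a1 a2 a3 ⊢
    refine (abs_add_le _ _).trans ?_
    have a4 := abs_sub (psiLogAP X2 (210 * q) r - psiLog1 X2 / (Nat.totient (210 * q) : ℝ))
      (2 * (psiLogAP Xm (210 * q) r - psiLog1 Xm / (Nat.totient (210 * q) : ℝ)))
    rw [abs_mul, abs_two] at a4
    linarith
  refine (sum_le_sum hterm).trans ?_
  rw [sum_const, nsmul_eq_mul, card_RD hD]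

theorem EE_nonneg (X : ℝ) (q r : ℕ) : 0 ≤ EE X q r := abs_nonneg _

theorem Pr_mem {J l : ℕ} (h : l ∈ Pr 4 J) : l.Prime ∧ 8 < l ∧ l < 2 ^ 2 ^ J := by
  unfold Pr at h
  rw [mem_filter, mem_range] at h
  exact ⟨h.2.1, by omega, h.1⟩

theorem sum_BV (A : ℕ) : ∃ X₀ : ℝ, ∀ X : ℝ, X₀ ≤ X → ∀ r : ℕ → ℕ,
    (∀ q, 1 ≤ q → (r q).Coprime (210 * q)) → ∀ J B : ℕ, (B : ℝ) ≤ X ^ (1 / 4 : ℝ) →
    ∑ D ∈ (Pr 4 J).powerset.filter (fun D => ∏ l ∈ D, l ≤ B),
      3 ^ D.card * EE X (∏ l ∈ D, l) (r (∏ l ∈ D, l)) ≤ X / (Real.log X) ^ A := by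
  obtain ⟨X₀, h⟩ := bvap 210 (by norm_num) 3 (by norm_num) (1 / 4) (by norm_num) A
  refine ⟨X₀, fun X hX r hr J B hB => ?_⟩
  refine le_trans ?_ (h X hX r)
  have hDp : ∀ D ∈ (Pr 4 J).powerset.filter (fun D => ∏ l ∈ D, l ≤ B), ∀ l ∈ D, l.Prime := by
    intro D hD l hl
    rw [mem_filter, mem_powerset] at hD
    exact (Pr_mem (hD.1 hl)).1
  have hpf : ∀ D ∈ (Pr 4 J).powerset.filter (fun D => ∏ l ∈ D, l ≤ B),
      (∏ l ∈ D, l).primeFactors = D := fun D hD => Nat.primeFactors_prod (hDp D hD)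
  have hinj : Set.InjOn (fun D : Finset ℕ => ∏ l ∈ D, l)
      ((Pr 4 J).powerset.filter (fun D => ∏ l ∈ D, l ≤ B) : Finset (Finset ℕ)) := by
    intro D hD D' hD' hEq
    have h1 := hpf D hD
    have h2 := hpf D' hD'
    simp only at hEq
    rw [← h1, ← h2, hEq]
  have h3 : ∑ D ∈ (Pr 4 J).powerset.filter (fun D => ∏ l ∈ D, l ≤ B),
      (3 : ℝ) ^ D.card * EE X (∏ l ∈ D, l) (r (∏ l ∈ D, l)) =
      ∑ q ∈ ((Pr 4 J).powerset.filter (fun D => ∏ l ∈ D, l ≤ B)).image (fun D => ∏ l ∈ D, l),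
        3 ^ q.primeFactors.card * EE X q (r q) := by
    rw [sum_image hinj]
    apply sum_congr rfl
    intro D hD
    rw [hpf D hD]
  rw [h3]
  apply sum_le_sum_of_subset_of_nonneg
  · intro q hq
    obtain ⟨D, hD, rfl⟩ := mem_image.1 hq
    have hD' := hD
    rw [mem_filter, mem_powerset] at hD'
    have hpos : 1 ≤ ∏ l ∈ D, l := prod_pos fun l hl => (hDp D hD l hl).pos
    rw [mem_filter, mem_Icc]
    refine ⟨⟨hpos, ?_⟩, ?_, hr _ hpos⟩
    · apply Nat.le_floor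
      have h4 : ((∏ l ∈ D, l : ℕ) : ℝ) ≤ B := by exact_mod_cast hD'.2
      refine h4.trans ?_
      norm_num
      exact hB
    · have hcop : Set.Pairwise (D : Set ℕ) (fun a b => IsCoprime ((a : ℤ)) b) → True := fun _ => trivial
      have : ∀ D : Finset ℕ, (∀ l ∈ D, l.Prime) → Squarefree (∏ l ∈ D, l) := by
        intro D
        induction D using Finset.induction_on with
        | empty => intro _; simp
        | insert a D ha ih =>
          intro hD
          rw [prod_insert ha]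
          have hc : Nat.Coprime a (∏ l ∈ D, l) := by
            apply Nat.Coprime.prod_right
            intro l hl
            rw [Nat.coprime_primes (hD a (mem_insert_self a D)) (hD l (mem_insert_of_mem hl))]
            rintro rfl
            exact ha hl
          rw [Nat.squarefree_mul hc]
          exact ⟨(hD a (mem_insert_self a D)).squarefree,
            ih fun l hl => hD l (mem_insert_of_mem hl)⟩
      exact this D (hDp D hD)
  · intro q _ _
    exact mul_nonneg (by positivity) (abs_nonneg _)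

end Pool.Agent.H141R2.FS
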