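import Pool.Agent.H141R2.FS.TS2

/-!
# Primes with almost prime shifts in short intervals
-/

set_option autoImplicit false

open Finset Filter Topology

namespace Pool.Agent.H141R2.FS

open Pool.Agent.H410R2 Pool.Agent.H410R2.ED

theorem tent_nonneg {X1 Xm X2 : ℝ} (h1 : 0 < X1) (hm : X1 ≤ Xm) (h2 : Xm ≤ X2)
    (hsq : Xm ^ 2 = X1 * X2) {n : ℕ} (hn : 1 ≤ n) :
    0 ≤ lp X2 n - 2 * lp Xm n + lp X1 n ∧
    lp X2 n - 2 * lp Xm n + lp X1 n ≤ Real.log (X2 / X1) ∧
    ((n : ℝ) ≤ X1 → lp X2 n - 2 * lp Xm n + lp X1 n = 0) := by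
  have hXm : 0 < Xm := lt_of_lt_of_le h1 hm
  have hX2 : 0 < X2 := lt_of_lt_of_le hXm h2
  have hn0 : (0 : ℝ) < n := by exact_mod_cast hn
  have hlog : 2 * Real.log Xm = Real.log X1 + Real.log X2 := by
    rw [← Real.log_mul h1.ne' hX2.ne', ← hsq, Real.log_pow]; push_cast; ring
  have hm' := Real.log_le_log h1 hm
  have h2' := Real.log_le_log hXm h2
  unfold lp
  rw [Real.log_div hX2.ne' hn0.ne', Real.log_div hXm.ne' hn0.ne', Real.log_div h1.ne' hn0.ne',
    Real.log_div hX2.ne' h1.ne']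
  by_cases c1 : (n : ℝ) ≤ X1
  · rw [if_pos c1, if_pos (c1.trans hm), if_pos (c1.trans (hm.trans h2))]
    refine ⟨by linarith, by linarith, fun _ => by linarith⟩
  · push Not at c1
    have l1 := Real.log_le_log h1 c1.le
    by_cases c2 : (n : ℝ) ≤ Xm
    · have l2 := Real.log_le_log hn0 c2
      rw [if_neg (not_le.2 c1), if_pos c2, if_pos (c2.trans h2)]
      refine ⟨by linarith, by linarith, fun h => absurd h (not_le.2 c1)⟩
    · push Not at c2
      have l2 := Real.log_le_log hXm c2.le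
      by_cases c3 : (n : ℝ) ≤ X2
      · have l3 := Real.log_le_log hn0 c3
        rw [if_neg (not_le.2 c1), if_neg (not_le.2 c2), if_pos c3]
        refine ⟨by linarith, by linarith, fun h => absurd h (not_le.2 c1)⟩
      · rw [if_neg (not_le.2 c1), if_neg (not_le.2 c2), if_neg c3]
        refine ⟨by linarith, by linarith, fun h => absurd h (not_le.2 c1)⟩

/-- few prime factors -/
theorem few_factors {m z k : ℕ} (hm : m ≠ 0) (hz : ∀ l, l.Prime → l ∣ m → z ≤ l)
    (h : m < z ^ k) : m.primeFactorsList.length ≤ k := by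
  by_contra hc
  push Not at hc
  have h1 : z ^ m.primeFactorsList.length ≤ m.primeFactorsList.prod := by
    apply List.pow_card_le_prod
    intro l hl
    rw [Nat.mem_primeFactorsList hm] at hl
    exact hz l hl.1 hl.2
  rw [Nat.prod_primeFactorsList hm] at h1
  rcases Nat.eq_zero_or_pos z with hz0 | hz0
  · subst hz0
    rcases Nat.eq_zero_or_pos k with hk | hk
    · subst hk; simp at h; exact hm h
    · rw [zero_pow hk.ne'] at h; omega
  · have h2 : z ^ k ≤ z ^ m.primeFactorsList.length := Nat.pow_le_pow_right hz0 hc.le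
    omega

theorem ff_cop {p l : ℕ} (hp : p % 210 = 13) (hl : l.Prime) (h : l ∣ ff p) : 8 < l := by
  by_contra hc
  push Not at hc
  have h1 : l ∣ 210 := by
    have : l = 2 ∨ l = 3 ∨ l = 5 ∨ l = 7 := by
      have := hl.two_le
      interval_cases l
      · exact Or.inl rfl
      · exact Or.inr (Or.inl rfl)
      · revert hl; decide
      · exact Or.inr (Or.inr (Or.inl rfl))
      · revert hl; decide
      · exact Or.inr (Or.inr (Or.inr rfl))
      · revert hl; decide
    rcases this with rfl | rfl | rfl | rfl <;> decide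
  rw [← dvd_ff_mod h1, hp] at h
  have h2 : ff 13 = 11 * 17 * 23 := by unfold ff; norm_num
  rw [h2, hl.dvd_mul, hl.dvd_mul] at h
  rcases h with (h | h) | h
  · have := (Nat.prime_dvd_prime_iff_eq hl (by norm_num)).1 h; omega
  · have := (Nat.prime_dvd_prime_iff_eq hl (by norm_num)).1 h; omega
  · have := (Nat.prime_dvd_prime_iff_eq hl (by norm_num)).1 h; omega

theorem ff_pos {p : ℕ} (hp : p % 210 = 13) : ff p ≠ 0 := by
  intro h
  have h2 := ff_cop hp (l := 2) (by norm_num) (by rw [h]; exact dvd_zero _)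
  omega

theorem ff_le {p : ℕ} (hp : 2 ≤ p) : ff p ≤ (p + 10) ^ 3 := by
  obtain ⟨k, rfl⟩ := Nat.exists_eq_add_of_le hp
  unfold ff
  have h1 : (((2 + k : ℕ) : ℤ) - 2) * (((2 + k : ℕ) : ℤ) + 4) * (((2 + k : ℕ) : ℤ) + 10) =
      ((k * (k + 6) * (k + 12) : ℕ) : ℤ) := by push_cast; ring
  rw [h1, Int.natAbs_natCast]
  calc k * (k + 6) * (k + 12) ≤ (2 + k + 10) * (2 + k + 10) * (2 + k + 10) :=
        Nat.mul_le_mul (Nat.mul_le_mul (by omega) (by omega)) (by omega)
    _ = _ := by ring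

theorem log_pow_small (K : ℕ) (ε : ℝ) (hε : 0 < ε) :
    ∀ᶠ X : ℝ in atTop, 2 * √X * Real.log X * (Real.log X) ^ K < ε * X := by
  have h := isLittleO_log_rpow_rpow_atTop ((K + 1 : ℕ) : ℝ) (show (0 : ℝ) < 1 / 2 by norm_num)
  have h1 := h.bound (show (0 : ℝ) < ε / 4 by positivity)
  filter_upwards [h1, eventually_ge_atTop (1 : ℝ)] with X hX hX1
  have hL : 0 ≤ Real.log X := Real.log_nonneg hX1
  have hs : 0 < √X := Real.sqrt_pos.2 (by linarith)
  rw [Real.rpow_natCast, Real.norm_eq_abs, Real.norm_eq_abs, abs_of_nonneg (by positivity),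
    abs_of_nonneg (by positivity), ← Real.sqrt_eq_rpow] at hX
  have h2 : √X * √X = X := Real.mul_self_sqrt (by linarith)
  have h3 : 2 * √X * Real.log X * (Real.log X) ^ K = 2 * √X * (Real.log X) ^ (K + 1) := by
    rw [pow_succ]; ring
  rw [h3]
  calc 2 * √X * (Real.log X) ^ (K + 1) ≤ 2 * √X * (ε / 4 * √X) := by gcongr
    _ = ε / 2 * X := by
      have : 2 * √X * (ε / 4 * √X) = ε / 2 * (√X * √X) := by ring
      rw [this, h2]
    _ < ε * X := by
      have : 0 < X := by linarith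
      nlinarith

end Pool.Agent.H141R2.FS
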