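import Pool.Agent.H141R2.FS.TS3

/-!
# Primes `p` with `(p-2)(p+4)(p+10)` almost prime in short intervals
-/

set_option autoImplicit false

open Finset Filter Topology

namespace Pool.Agent.H141R2.FS

open Pool.Agent.H410R2 Pool.Agent.H410R2.ED

/-- the main term -/
theorem main_term {ρ : ℝ} (h0 : 0 < ρ) (h1 : ρ < 1) :
    ∀ᶠ X : ℝ in atTop, (1 - √ρ) ^ 2 / 2 * X ≤
      psiLog1 X - 2 * psiLog1 (√ρ * X) + psiLog1 (ρ * X) := by
  have hs0 : 0 < √ρ := Real.sqrt_pos.2 h0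
  have hs1 : √ρ < 1 := by rw [Real.sqrt_lt' one_pos]; simpa using h1
  have hsq : √ρ * √ρ = ρ := Real.mul_self_sqrt h0.le
  have hP : PNTLog := Pool.Agent.H732R2.pntLog
  have hlim : ∀ a : ℝ, 0 < a → Tendsto (fun X : ℝ => psiLog1 (a * X) / X) atTop (𝓝 a) := by
    intro a ha
    have h2 : Tendsto (fun X : ℝ => a * X) atTop atTop := tendsto_id.const_mul_atTop ha
    have h3 := (hP.comp h2).const_mul a
    rw [mul_one] at h3
    refine h3.congr' ?_
    filter_upwards [eventually_gt_atTop (0 : ℝ)] with X hX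
    simp only [Function.comp]
    field_simp
  have h4 := ((hlim 1 one_pos).sub ((hlim (√ρ) hs0).const_mul 2)).add (hlim ρ h0)
  have h5 : (1 - √ρ) ^ 2 / 2 < 1 - 2 * √ρ + ρ := by
    have : 0 < (1 - √ρ) ^ 2 := by
      have : 0 < 1 - √ρ := by linarith
      positivity
    nlinarith
  filter_upwards [h4.eventually_const_lt h5, eventually_gt_atTop (0 : ℝ)] with X hX hX0
  rw [one_mul] at hX
  have h6 : psiLog1 X / X - 2 * (psiLog1 (√ρ * X) / X) + psiLog1 (ρ * X) / X =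
      (psiLog1 X - 2 * psiLog1 (√ρ * X) + psiLog1 (ρ * X)) / X := by ring
  rw [h6, lt_div_iff₀ hX0] at hX
  exact hX.le

theorem core {ρ : ℝ} (hρ0 : 1 / 2 ≤ ρ) (hρ1 : ρ < 1) : ∃ R : ℕ, ∀ᶠ X : ℝ in atTop, ∃ p : ℕ,
    p.Prime ∧ p % 210 = 13 ∧ ρ * X < p ∧ (p : ℝ) ≤ X ∧ (ff p).primeFactorsList.length ≤ R := by
  have hρ : 0 < ρ := by linarith
  have hs0 : 0 < √ρ := Real.sqrt_pos.2 hρ
  have hs1 : √ρ < 1 := by rw [Real.sqrt_lt' one_pos]; simpa using hρ1
  have hsq : √ρ * √ρ = ρ := Real.mul_self_sqrt hρ.le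
  have hρs : ρ < √ρ := by nlinarith
  obtain ⟨c, hc1, v, hv0, hv1, hsieve⟩ := wbhk 4 (by norm_num)
  obtain ⟨K, hK⟩ := exists_pow_lt_of_lt_one hv0 (show (1 / 2 : ℝ) < 1 by norm_num)
  obtain ⟨X₀, hBV⟩ := sum_BV (K + 3)
  set c0 : ℝ := (1 - √ρ) ^ 2 / 2 with hc0
  have hc00 : 0 < c0 := by
    have : 0 < 1 - √ρ := by linarith
    positivity
  have hl2 : 0 < Real.log 2 := Real.log_pos (by norm_num)
  have hl2' : 1 / 2 < Real.log 2 := by have := Real.log_two_gt_d9; linarith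
  have hcR : (1 : ℝ) ≤ c := by exact_mod_cast hc1
  refine ⟨48 * c, ?_⟩
  have hlogt : Tendsto (fun X : ℝ => Real.log (ρ * X)) atTop atTop :=
    Real.tendsto_log_atTop.comp (tendsto_id.const_mul_atTop hρ)
  filter_upwards [main_term hρ hρ1, log_pow_small K (c0 / 400) (by positivity),
    eventually_ge_atTop (100 : ℝ), eventually_ge_atTop (X₀ / ρ),
    hlogt.eventually_ge_atTop (8 * (c : ℝ) * Real.log 2),
    hlogt.eventually_ge_atTop (1600 / c0), hlogt.eventually_ge_atTop 1]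
    with X hmain hsmall hX100 hX0 hlc hlc0 hl1
  set X1 := ρ * X with hX1
  set Xm := √ρ * X with hXm
  have hXpos : 0 < X := by linarith
  have hX1pos : 0 < X1 := by positivity
  have hX1m : X1 ≤ Xm := mul_le_mul_of_nonneg_right hρs.le hXpos.le
  have hXmX : Xm ≤ X := by
    calc Xm = √ρ * X := rfl
      _ ≤ 1 * X := mul_le_mul_of_nonneg_right hs1.le hXpos.le
      _ = X := one_mul _
  have hXmpos : 0 < Xm := lt_of_lt_of_le hX1pos hX1m
  have hXsq : Xm ^ 2 = X1 * X := by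
    rw [hXm, hX1, mul_pow, Real.sq_sqrt hρ.le]; ring
  have hX01 : X₀ ≤ X1 := by
    rw [div_le_iff₀ hρ] at hX0
    linarith
  have hX1h : X ≤ 2 * X1 := by nlinarith
  have hlX1 : 0 < Real.log X1 := by linarith
  have hlX1X : Real.log X1 ≤ Real.log X := Real.log_le_log hX1pos (hX1m.trans hXmX)
  have hlX1Xm : Real.log X1 ≤ Real.log Xm := Real.log_le_log hX1pos hX1m
  -- choice of J
  set Y : ℝ := Real.log X1 / (4 * c * Real.log 2) with hY
  have hden : 0 < 4 * (c : ℝ) * Real.log 2 := by positivity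
  have hY1 : 1 ≤ Y := by
    rw [hY, le_div_iff₀ hden]
    nlinarith
  obtain ⟨J, hJ1, hJ2⟩ := exists_nat_pow_near hY1 (show (1 : ℝ) < 2 by norm_num)
  have hYle : Y ≤ Real.log X1 := by
    rw [hY]
    apply div_le_self hlX1.le
    nlinarith
  have hzlog : Real.log (((2 ^ 2 ^ J : ℕ)) : ℝ) = 2 ^ J * Real.log 2 := by
    push_cast
    rw [Real.log_pow]
    push_cast
    ring
  have hzc : ((((2 ^ 2 ^ J) ^ c : ℕ)) : ℝ) ≤ X1 ^ (1 / 4 : ℝ) := by
    have hpos : (0 : ℝ) < ((((2 ^ 2 ^ J) ^ c : ℕ)) : ℝ) := by positivity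
    rw [← Real.log_le_log_iff hpos (by positivity), Real.log_rpow hX1pos]
    have h1 : Real.log ((((2 ^ 2 ^ J) ^ c : ℕ)) : ℝ) = c * (2 ^ J * Real.log 2) := by
      rw [← hzlog]
      push_cast
      rw [Real.log_pow (2 ^ 2 ^ J) c]
    rw [h1]
    rw [hY, le_div_iff₀ hden] at hJ1
    linarith
  have hz48 : X1 < ((2 ^ 2 ^ J : ℕ) : ℝ) ^ (8 * c) := by
    have hpos : (0 : ℝ) < ((2 ^ 2 ^ J : ℕ) : ℝ) ^ (8 * c) := by positivity
    rw [← Real.log_lt_log_iff hX1pos hpos, Real.log_pow, hzlog]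
    rw [hY, div_lt_iff₀ hden, pow_succ] at hJ2
    push_cast
    linarith
  -- the maximal classes
  obtain ⟨r1, hr1⟩ := exists_rr X1
  obtain ⟨rm, hrm⟩ := exists_rr Xm
  obtain ⟨r2, hr2⟩ := exists_rr X
  set S := (Icc 1 ⌊X⌋₊).filter (fun n => n % 210 = 13) with hS
  set err : Finset ℕ → ℝ := fun D => 3 ^ D.card * (EE X (∏ l ∈ D, l) (r2 (∏ l ∈ D, l)) +
    2 * EE Xm (∏ l ∈ D, l) (rm (∏ l ∈ D, l)) + EE X1 (∏ l ∈ D, l) (r1 (∏ l ∈ D, l))) with herr
  have hw : ∀ n ∈ S, 0 ≤ tw X1 Xm X n := by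
    intro n hn
    rw [hS, mem_filter, mem_Icc] at hn
    exact mul_nonneg ArithmeticFunction.vonMangoldt_nonneg
      (tent_nonneg hX1pos hX1m hXmX hXsq hn.1.1).1
  have herr0 : ∀ D, 0 ≤ err D := by
    intro D
    simp only [herr]
    have a1 := EE_nonneg X (∏ l ∈ D, l) (r2 (∏ l ∈ D, l))
    have a2 := EE_nonneg Xm (∏ l ∈ D, l) (rm (∏ l ∈ D, l))
    have a3 := EE_nonneg X1 (∏ l ∈ D, l) (r1 (∏ l ∈ D, l))
    positivity
  set Ψ := psiLog1 X - 2 * psiLog1 Xm + psiLog1 X1 with hΨ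
  have hmain' : c0 * X ≤ Ψ := hmain
  have hΨ0 : 0 ≤ Ψ / 48 := by
    have : 0 ≤ c0 * X := by positivity
    linarith
  have hgood := hsieve (fun l => 3 / ((l : ℝ) - 1)) (by
      intro l _ hl
      have h8 : (8 : ℝ) < l := by exact_mod_cast hl
      refine ⟨by apply div_nonneg <;> linarith, ?_⟩
      rw [div_le_div_iff₀ (by linarith) (by linarith)]
      push_cast
      linarith) J S ff (tw X1 Xm X) (Ψ / 48) err hΨ0 hw herr0 (by
      intro D hD _
      exact err_D hX1pos.le hX1m hXmX r1 rm r2 (fun q hq => (hr1 q hq).2)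
        (fun q hq => (hrm q hq).2) (fun q hq => (hr2 q hq).2)
        (fun l hl => ⟨(Pr_mem (hD hl)).1, (Pr_mem (hD hl)).2.1⟩))
  -- error bound
  have hB1 := hBV X1 hX01 r1 (fun q hq => (hr1 q hq).1) J ((2 ^ 2 ^ J) ^ c) hzc
  have hBm := hBV Xm (hX01.trans hX1m) rm (fun q hq => (hrm q hq).1) J ((2 ^ 2 ^ J) ^ c)
    (hzc.trans (Real.rpow_le_rpow hX1pos.le hX1m (by norm_num)))
  have hB2 := hBV X (hX01.trans (hX1m.trans hXmX)) r2 (fun q hq => (hr2 q hq).1) J
    ((2 ^ 2 ^ J) ^ c)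
    (hzc.trans (Real.rpow_le_rpow hX1pos.le (hX1m.trans hXmX) (by norm_num)))
  have hE : ∑ D ∈ (Pr 4 J).powerset.filter (fun D => ∏ l ∈ D, l ≤ (2 ^ 2 ^ J) ^ c), err D ≤
      4 * (X / (Real.log X1) ^ (K + 3)) := by
    have e1 : X1 / (Real.log X1) ^ (K + 3) ≤ X / (Real.log X1) ^ (K + 3) := by
      apply div_le_div_of_nonneg_right (hX1m.trans hXmX) (by positivity)
    have e2 : Xm / (Real.log Xm) ^ (K + 3) ≤ X / (Real.log X1) ^ (K + 3) := by
      apply div_le_div₀ hXpos.le hXmX (by positivity)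
      exact pow_le_pow_left₀ hlX1.le hlX1Xm _
    have e3 : X / (Real.log X) ^ (K + 3) ≤ X / (Real.log X1) ^ (K + 3) := by
      apply div_le_div₀ hXpos.le le_rfl (by positivity)
      exact pow_le_pow_left₀ hlX1.le hlX1X _
    have e4 : ∑ D ∈ (Pr 4 J).powerset.filter (fun D => ∏ l ∈ D, l ≤ (2 ^ 2 ^ J) ^ c), err D =
        (∑ D ∈ (Pr 4 J).powerset.filter (fun D => ∏ l ∈ D, l ≤ (2 ^ 2 ^ J) ^ c),
          3 ^ D.card * EE X (∏ l ∈ D, l) (r2 (∏ l ∈ D, l))) +
        2 * (∑ D ∈ (Pr 4 J).powerset.filter (fun D => ∏ l ∈ D, l ≤ (2 ^ 2 ^ J) ^ c),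
          3 ^ D.card * EE Xm (∏ l ∈ D, l) (rm (∏ l ∈ D, l))) +
        (∑ D ∈ (Pr 4 J).powerset.filter (fun D => ∏ l ∈ D, l ≤ (2 ^ 2 ^ J) ^ c),
          3 ^ D.card * EE X1 (∏ l ∈ D, l) (r1 (∏ l ∈ D, l))) := by
      rw [mul_sum, ← sum_add_distrib, ← sum_add_distrib]
      apply sum_congr rfl
      intro D _
      simp only [herr]
      ring
    rw [e4]
    linarith
  have hJlog : (J : ℝ) + 1 ≤ Real.log X1 := by
    have h1 : J + 1 ≤ 2 ^ J := Nat.lt_two_pow_self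
    have h2 : ((J + 1 : ℕ) : ℝ) ≤ ((2 ^ J : ℕ) : ℝ) := by exact_mod_cast h1
    push_cast at h2
    linarith
  have hvJ : 1 / (Real.log X1) ^ K ≤ v ^ J := by
    have h1 : ((1 / 2 : ℝ) ^ K) ^ J ≤ v ^ J := pow_le_pow_left₀ (by positivity) hK.le J
    refine le_trans ?_ h1
    have h2 : ((1 / 2 : ℝ) ^ K) ^ J = 1 / (2 ^ J) ^ K := by
      rw [← pow_mul, one_div_pow, ← pow_mul, mul_comm K J]
    rw [h2]
    apply one_div_le_one_div_of_le (by positivity)
    exact pow_le_pow_left₀ (by positivity) (hJ1.trans hYle) K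
  -- lower bound for the sifted sum
  have hlow : c0 / 400 * X / (Real.log X1) ^ K ≤
      ∑ n ∈ S.filter (fun n => ∀ l ∈ Pr 4 J, ¬ l ∣ ff n), tw X1 Xm X n := by
    refine le_trans ?_ hgood
    have h1 : c0 * X / 96 * (1 / (Real.log X1) ^ K) ≤ Ψ / 48 / 2 * v ^ J := by
      apply mul_le_mul _ hvJ (by positivity) (by linarith)
      linarith
    have h2 : ((J : ℝ) + 1) *
        ∑ D ∈ (Pr 4 J).powerset.filter (fun D => ∏ l ∈ D, l ≤ (2 ^ 2 ^ J) ^ c), err D ≤
        Real.log X1 * (4 * (X / (Real.log X1) ^ (K + 3))) := by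
      apply mul_le_mul hJlog hE (sum_nonneg fun D _ => herr0 D) hlX1.le
    have h3 : Real.log X1 * (4 * (X / (Real.log X1) ^ (K + 3))) =
        4 / (Real.log X1) ^ 2 * (X / (Real.log X1) ^ K) := by
      rw [pow_add]
      field_simp
    have h4 : 4 / (Real.log X1) ^ 2 ≤ c0 / 400 := by
      rw [div_le_iff₀ (by positivity)]
      have h5 : 1600 ≤ Real.log X1 * c0 := by
        rwa [div_le_iff₀ hc00] at hlc0
      nlinarith
    have h5 : 0 ≤ X / (Real.log X1) ^ K := by positivity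
    have h6 := mul_le_mul_of_nonneg_right h4 h5
    have h7 : c0 * X / 96 * (1 / (Real.log X1) ^ K) = c0 / 96 * (X / (Real.log X1) ^ K) := by
      field_simp
    have h8 : c0 / 400 * X / (Real.log X1) ^ K = c0 / 400 * (X / (Real.log X1) ^ K) := by
      field_simp
    rw [h7] at h1
    rw [h8]
    rw [h3] at h2
    have h9 : c0 / 400 * (X / (Real.log X1) ^ K) + c0 / 400 * (X / (Real.log X1) ^ K) ≤
        c0 / 96 * (X / (Real.log X1) ^ K) := by
      rw [← add_mul]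
      apply mul_le_mul_of_nonneg_right _ h5
      linarith
    linarith
  -- existence of the prime
  have hex : ∃ p ∈ S.filter (fun n => ∀ l ∈ Pr 4 J, ¬ l ∣ ff n), p.Prime ∧ X1 < p := by
    by_contra hcon
    push Not at hcon
    have h1 : ∑ n ∈ S.filter (fun n => ∀ l ∈ Pr 4 J, ¬ l ∣ ff n), tw X1 Xm X n ≤
        ∑ n ∈ (Ioc 0 ⌊X⌋₊).filter (fun n => ¬ n.Prime),
          ArithmeticFunction.vonMangoldt n := by
      have h2 : ∑ n ∈ S.filter (fun n => ∀ l ∈ Pr 4 J, ¬ l ∣ ff n), tw X1 Xm X n =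
          ∑ n ∈ (S.filter (fun n => ∀ l ∈ Pr 4 J, ¬ l ∣ ff n)).filter (fun n => ¬ n.Prime),
            tw X1 Xm X n := by
        rw [sum_filter (s := S.filter (fun n => ∀ l ∈ Pr 4 J, ¬ l ∣ ff n))]
        apply sum_congr rfl
        intro n hn
        by_cases hnp : n.Prime
        · have h3 := hcon n hn hnp
          rw [mem_filter, hS, mem_filter, mem_Icc] at hn
          have h4 := (tent_nonneg hX1pos hX1m hXmX hXsq hn.1.1.1).2.2 h3
          rw [if_neg (by simpa using hnp)]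
          unfold tw
          rw [h4, mul_zero]
        · rw [if_pos hnp]
      rw [h2]
      calc ∑ n ∈ (S.filter (fun n => ∀ l ∈ Pr 4 J, ¬ l ∣ ff n)).filter (fun n => ¬ n.Prime),
            tw X1 Xm X n ≤
          ∑ n ∈ (S.filter (fun n => ∀ l ∈ Pr 4 J, ¬ l ∣ ff n)).filter (fun n => ¬ n.Prime),
            ArithmeticFunction.vonMangoldt n := by
            apply sum_le_sum
            intro n hn
            rw [mem_filter, mem_filter, hS, mem_filter, mem_Icc] at hn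
            have h4 := (tent_nonneg hX1pos hX1m hXmX hXsq hn.1.1.1.1).2.1
            unfold tw
            have h5 : Real.log (X / X1) ≤ 1 := by
              have h6 : X / X1 ≤ 2 := by rw [div_le_iff₀ hX1pos]; exact hX1h
              have h7 : Real.log (X / X1) ≤ Real.log 2 :=
                Real.log_le_log (by positivity) h6
              have := Real.log_two_lt_d9
              linarith
            calc _ ≤ ArithmeticFunction.vonMangoldt n * 1 :=
                  mul_le_mul_of_nonneg_left (h4.trans h5) ArithmeticFunction.vonMangoldt_nonneg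
              _ = _ := mul_one _
        _ ≤ _ := by
            apply sum_le_sum_of_subset_of_nonneg
            · intro n hn
              rw [mem_filter, mem_filter, hS, mem_filter, mem_Icc] at hn
              rw [mem_filter, mem_Ioc]
              exact ⟨⟨hn.1.1.1.1, hn.1.1.1.2⟩, hn.2⟩
            · intro n _ _
              exact ArithmeticFunction.vonMangoldt_nonneg
    rw [← Chebyshev.psi_sub_theta_eq_sum_not_prime] at h1
    have h2 := Chebyshev.psi_sub_theta_le (x := X) (by linarith)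
    have h3 : c0 / 400 * X / (Real.log X1) ^ K ≤ 2 * √X * Real.log X := hlow.trans (h1.trans h2)
    rw [div_le_iff₀ (by positivity)] at h3
    have h4 : 2 * √X * Real.log X * (Real.log X1) ^ K ≤
        2 * √X * Real.log X * (Real.log X) ^ K := by
      apply mul_le_mul_of_nonneg_left (pow_le_pow_left₀ hlX1.le hlX1X K)
      have : 0 ≤ Real.log X := by linarith
      positivity
    linarith
  obtain ⟨p, hp, hpp, hpX1⟩ := hex
  rw [mem_filter, hS, mem_filter, mem_Icc] at hp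
  obtain ⟨⟨⟨hp1, hp2⟩, hp3⟩, hp4⟩ := hp
  have hpX : (p : ℝ) ≤ X := (Nat.le_floor_iff hXpos.le).1 hp2
  refine ⟨p, hpp, hp3, hpX1, hpX, ?_⟩
  apply few_factors (z := 2 ^ 2 ^ J) (ff_pos hp3)
  · intro l hl hdvd
    by_contra hlt
    push Not at hlt
    apply hp4 l _ hdvd
    unfold Pr
    rw [mem_filter, mem_range]
    exact ⟨hlt, hl, by have := ff_cop hp3 hl hdvd; omega⟩
  · have h1 := ff_le hpp.two_le
    have h2 : ((p + 10 : ℕ) : ℝ) ≤ X1 ^ 2 := by
      push_cast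
      nlinarith
    have h3 : (((p + 10) ^ 3 : ℕ) : ℝ) ≤ X1 ^ 6 := by
      have : X1 ^ 6 = (X1 ^ 2) ^ 3 := by ring
      rw [this]
      push_cast
      push_cast at h2
      exact pow_le_pow_left₀ (by positivity) h2 3
    have h4 : X1 ^ 6 < (((2 ^ 2 ^ J : ℕ) : ℝ) ^ (8 * c)) ^ 6 :=
      pow_lt_pow_left₀ hz48 hX1pos.le (by norm_num)
    have h5 : ((((2 ^ 2 ^ J : ℕ)) : ℝ) ^ (8 * c)) ^ 6 = (((2 ^ 2 ^ J) ^ (48 * c) : ℕ) : ℝ) := by
      push_cast
      rw [← pow_mul (2 ^ 2 ^ J : ℝ)]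
      congr 1
      ring
    rw [h5] at h4
    have h6 : (((p + 10) ^ 3 : ℕ) : ℝ) < (((2 ^ 2 ^ J) ^ (48 * c) : ℕ) : ℝ) :=
      lt_of_le_of_lt h3 h4
    have h7 : (p + 10) ^ 3 < (2 ^ 2 ^ J) ^ (48 * c) := by exact_mod_cast h6
    omega

end Pool.Agent.H141R2.FS
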