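import Pool.Agent.H141R2.FS.Three

/-!
# The ternary form `5 u² + 6 a² + 30 w²`
-/

set_option autoImplicit false

namespace Pool.Agent.H141R2.FS

/-- `m` is represented by the ternary form `5 u² + 6 a² + 30 w²`. -/
def Rm (m : ℤ) : Prop := ∃ u a w : ℤ, 5 * u ^ 2 + 6 * a ^ 2 + 30 * w ^ 2 = m

theorem rm_of {A B C : ℤ} (h2 : 2 ∣ A - C) (h3 : 3 ∣ A + B + C) (h5 : 5 ∣ 2 * A + B) :
    Rm (A ^ 2 + B ^ 2 + C ^ 2) := by
  have h6 : 6 ∣ A - 2 * B + C := by omega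
  have h30 : 30 ∣ A - 2 * B - 5 * C := by omega
  obtain ⟨u, hu⟩ := h5
  obtain ⟨a, ha⟩ := h6
  obtain ⟨w, hw⟩ := h30
  refine ⟨u, a, w, ?_⟩
  have hA : A = 2 * u + a + w := by omega
  have hB : B = u - 2 * a - 2 * w := by omega
  have hC : C = a - 5 * w := by omega
  rw [hA, hB, hC]; ring

/-- after permuting and changing signs the vector lies in the good sublattice -/
def Gd (x y z : ℤ) : Prop := ∃ s t : ℤ, (s = 1 ∨ s = -1) ∧ (t = 1 ∨ t = -1) ∧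
  ((3 ∣ x + s * z + t * y ∧ 5 ∣ 2 * x + s * z) ∨ (3 ∣ y + s * z + t * x ∧ 5 ∣ 2 * y + s * z))

theorem rm_of_gd {x y z : ℤ} (h : 2 ∣ x - y) (hg : Gd x y z) : Rm (x ^ 2 + y ^ 2 + z ^ 2) := by
  obtain ⟨s, t, hs, ht, hg | hg⟩ := hg
  · have h1 := rm_of (A := x) (B := s * z) (C := t * y)
      (by rcases ht with rfl | rfl <;> omega) hg.1 hg.2
    have h2 : x ^ 2 + (s * z) ^ 2 + (t * y) ^ 2 = x ^ 2 + y ^ 2 + z ^ 2 := by
      rcases hs with rfl | rfl <;> rcases ht with rfl | rfl <;> ring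
    rwa [h2] at h1
  · have h1 := rm_of (A := y) (B := s * z) (C := t * x)
      (by rcases ht with rfl | rfl <;> omega) hg.1 hg.2
    have h2 : y ^ 2 + (s * z) ^ 2 + (t * x) ^ 2 = x ^ 2 + y ^ 2 + z ^ 2 := by
      rcases hs with rfl | rfl <;> rcases ht with rfl | rfl <;> ring
    rwa [h2] at h1

/-- reflection in a vector of norm three -/
theorem refl_norm {x y z k e f : ℤ} (he : e = 1 ∨ e = -1) (hf : f = 1 ∨ f = -1)
    (hk : x + e * y + f * z = 3 * k) :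
    (x - 2 * k) ^ 2 + (y - 2 * k * e) ^ 2 + (z - 2 * k * f) ^ 2 = x ^ 2 + y ^ 2 + z ^ 2 := by
  rcases he with rfl | rfl <;> rcases hf with rfl | rfl <;> linear_combination (-4 * k) * hk

theorem base_case {x y z a b : ℤ} (hy : y = 3 * x + 15 * a) (hz : z = 2 * x + 15 * b)
    (h2x : 2 ∣ x) (h2y : 2 ∣ y) (h3 : ¬ 3 ∣ x) (hab : ¬ (3 ∣ a ∧ 3 ∣ b)) :
    Rm (x ^ 2 + y ^ 2 + z ^ 2) := by
  by_cases hd : 3 ∣ b - a
  · have hs : ¬ 3 ∣ a + b := by omega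
    set k := 2 * x + 5 * (a + b) with hk
    have hn := refl_norm (x := x) (y := y) (z := z) (k := k) (e := 1) (f := 1) (Or.inl rfl)
      (Or.inl rfl) (by rw [hy, hz, hk]; ring)
    rw [← hn]
    apply rm_of_gd (by omega)
    have hx' : ¬ 3 ∣ x - 2 * k := by omega
    -- pair (y', z')
    have h1 : x % 3 = 1 ∨ x % 3 = 2 := by omega
    have h2 : (a + b) % 3 = 1 ∨ (a + b) % 3 = 2 := by omega
    have h3' : 3 ∣ (y - 2 * k * 1) + (-1) * (z - 2 * k * 1) + 1 * (x - 2 * k) ∨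
        3 ∣ (y - 2 * k * 1) + (-1) * (z - 2 * k * 1) + (-1) * (x - 2 * k) := by
      rcases h1 with h1 | h1 <;> rcases h2 with h2 | h2 <;>
        first | (left; omega) | (right; omega)
    rcases h3' with h | h
    · exact ⟨-1, 1, Or.inr rfl, Or.inl rfl, Or.inr ⟨h, by omega⟩⟩
    · exact ⟨-1, -1, Or.inr rfl, Or.inr rfl, Or.inr ⟨h, by omega⟩⟩
  · set k := 5 * (b - a) with hk
    have hn := refl_norm (x := x) (y := y) (z := z) (k := k) (e := -1) (f := 1) (Or.inr rfl)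
      (Or.inl rfl) (by rw [hy, hz, hk]; ring)
    rw [← hn]
    apply rm_of_gd (by omega)
    have h1 : x % 3 = 1 ∨ x % 3 = 2 := by omega
    have h2 : (b - a) % 3 = 1 ∨ (b - a) % 3 = 2 := by omega
    have h3' : 3 ∣ (x - 2 * k) + (-1) * (z - 2 * k * 1) + 1 * (y - 2 * k * -1) ∨
        3 ∣ (x - 2 * k) + (-1) * (z - 2 * k * 1) + (-1) * (y - 2 * k * -1) := by
      rcases h1 with h1 | h1 <;> rcases h2 with h2 | h2 <;>
        first | (left; omega) | (right; omega)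
    rcases h3' with h | h
    · exact ⟨-1, 1, Or.inr rfl, Or.inl rfl, Or.inl ⟨h, by omega⟩⟩
    · exact ⟨-1, -1, Or.inr rfl, Or.inr rfl, Or.inl ⟨h, by omega⟩⟩

theorem stuck (k : ℕ) : ∀ x y z a b : ℤ, y = 3 * x + 15 * 3 ^ k * a → z = 2 * x + 15 * 3 ^ k * b →
    2 ∣ x → 2 ∣ y → ¬ 3 ∣ x → ¬ (3 ∣ a ∧ 3 ∣ b) → Rm (x ^ 2 + y ^ 2 + z ^ 2) := by
  induction k with
  | zero =>
    intro x y z a b hy hz h2x h2y h3 hab
    exact base_case (a := a) (b := b) (by rw [hy]; ring) (by rw [hz]; ring) h2x h2y h3 hab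
  | succ k ih =>
    intro x y z a b hy hz h2x h2y h3 hab
    set q : ℤ := 3 ^ k with hq
    have hq3 : (3 : ℤ) ^ (k + 1) = 3 * q := by rw [pow_succ]; ring
    rw [hq3] at hy hz
    by_cases hd : 3 ∣ b - a
    · have hs : ¬ 3 ∣ a + b := by omega
      set K : ℤ := 2 * x + 15 * (q * (a + b)) with hK
      have hn := refl_norm (x := x) (y := y) (z := z) (k := K) (e := 1) (f := 1) (Or.inl rfl)
        (Or.inl rfl) (by rw [hy, hz, hK]; ring)
      rw [← hn]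
      have h1 := ih (-(y - 2 * K * 1)) (-(x - 2 * K)) (-(z - 2 * K * 1)) (5 * a - 4 * b)
        (4 * a - 5 * b) (by rw [hy, hK]; ring) (by rw [hy, hz, hK]; ring) (by omega) (by omega)
        (by
          have : -(y - 2 * K * 1) = x + 3 * (-(15 * (q * a)) + 10 * (q * (a + b))) := by
            rw [hy, hK]; ring
          rw [this]; omega) (by omega)
      have h2 : (-(y - 2 * K * 1)) ^ 2 + (-(x - 2 * K)) ^ 2 + (-(z - 2 * K * 1)) ^ 2 =
          (x - 2 * K) ^ 2 + (y - 2 * K * 1) ^ 2 + (z - 2 * K * 1) ^ 2 := by ring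
      rwa [h2] at h1
    · set K : ℤ := 15 * (q * (b - a)) with hK
      have hn := refl_norm (x := x) (y := y) (z := z) (k := K) (e := -1) (f := 1) (Or.inr rfl)
        (Or.inl rfl) (by rw [hy, hz, hK]; ring)
      rw [← hn]
      exact ih (x - 2 * K) (y - 2 * K * -1) (z - 2 * K * 1) (8 * b - 5 * a) (5 * b - 2 * a)
        (by rw [hy, hK]; ring) (by rw [hz, hK]; ring) (by omega) (by omega) (by omega) (by omega)

theorem split_three (n : ℕ) : ∀ α β : ℤ, β.natAbs ≤ n → β ≠ 0 →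
    ∃ (k : ℕ) (a b : ℤ), α = 3 ^ k * a ∧ β = 3 ^ k * b ∧ ¬ (3 ∣ a ∧ 3 ∣ b) := by
  induction n with
  | zero => intro α β h1 h2; omega
  | succ n ih =>
    intro α β h1 h2
    by_cases h : 3 ∣ α ∧ 3 ∣ β
    · obtain ⟨⟨a, ha⟩, ⟨b, hb⟩⟩ := h
      obtain ⟨k, a', b', h3, h4, h5⟩ := ih a b (by omega) (by omega)
      exact ⟨k + 1, a', b', by rw [ha, h3, pow_succ]; ring, by rw [hb, h4, pow_succ]; ring, h5⟩
    · exact ⟨0, α, β, by simp, by simp, h⟩

theorem stuck' {x y z : ℤ} (hy : 15 ∣ y - 3 * x) (hz : 15 ∣ z - 2 * x) (h2x : 2 ∣ x)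
    (h2y : 2 ∣ y) (h2z : ¬ 2 ∣ z) (h3 : ¬ 3 ∣ x) : Rm (x ^ 2 + y ^ 2 + z ^ 2) := by
  obtain ⟨α, hα⟩ := hy
  obtain ⟨β, hβ⟩ := hz
  obtain ⟨k, a, b, ha, hb, hab⟩ := split_three _ α β le_rfl (by rintro rfl; omega)
  exact stuck k x y z a b (by rw [ha] at hα; linear_combination hα)
    (by rw [hb] at hβ; linear_combination hβ) h2x h2y h3 hab

end Pool.Agent.H141R2.FS
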