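import Pool.Agent.H591R2.ThreeSq

/-!
# Three squares for `m = 1 mod 4`
-/

set_option autoImplicit false

namespace Pool.Agent.H141R2.FS

open Pool.Agent.H591R2 Pool.Agent.H591R2.St

/-- Every positive integer `m = 1 mod 4` is a sum of three squares. -/
theorem three_squares_one {m : ℕ} (hm : m % 4 = 1) :
    ∃ x y z : ℤ, x ^ 2 + y ^ 2 + z ^ 2 = m := by
  rcases Nat.lt_or_ge 1 m with h1 | h1
  · have hm0 : m ≠ 0 := by omega
    have : NeZero m := ⟨hm0⟩
    have hmodd : Odd m := Nat.odd_iff.2 (by omega)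
    have hcop : Nat.Coprime 4 m := by
      rw [show (4 : ℕ) = 2 ^ 2 by norm_num]
      exact Nat.Coprime.pow_left 2 (Nat.coprime_two_left.2 hmodd)
    -- a prime q with q = 1 mod 4 and q = -1 mod m
    obtain ⟨r, hr4, hrm⟩ := Nat.chineseRemainder hcop 1 (m - 1)
    have : NeZero (4 * m) := ⟨by omega⟩
    have hrc : Nat.Coprime r (4 * m) := by
      apply Nat.Coprime.mul_right
      · have h4 : r % 4 = 1 := hr4
        rw [show (4 : ℕ) = 2 ^ 2 by norm_num]
        exact Nat.Coprime.pow_right 2 (Nat.coprime_two_right.2 (Nat.odd_iff.2 (by omega)))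
      · have h5 : Nat.gcd m r = Nat.gcd m (m - 1) := by
          have := hrm.gcd_eq
          rwa [Nat.gcd_comm r m, Nat.gcd_comm (m - 1) m] at this
        have h6 : Nat.Coprime m (m - 1) := by
          have := Nat.coprime_self_sub_right (n := m) (m := 1) (by omega)
          exact this.2 (Nat.coprime_one_right m)
        exact Nat.Coprime.symm (h5.trans h6)
    obtain ⟨q, hqm, hq, hqr⟩ := Nat.forall_exists_prime_gt_and_eq_mod
      (a := (r : ZMod (4 * m))) ((ZMod.isUnit_iff_coprime r (4 * m)).2 hrc) (m + 2)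
    have hqr' : q ≡ r [MOD 4 * m] := (ZMod.natCast_eq_natCast_iff q r (4 * m)).1 hqr
    have hq4 : q % 4 = 1 := (Nat.ModEq.of_mul_right m hqr').trans hr4
    have hqm1 : q ≡ m - 1 [MOD m] := (Nat.ModEq.of_mul_left 4 hqr').trans hrm
    have hdvd : (m : ℤ) ∣ q + 1 := by
      have h7 : q + 1 ≡ m - 1 + 1 [MOD m] := hqm1.add_right 1
      rw [show m - 1 + 1 = m by omega] at h7
      have h8 : m ∣ q + 1 := (Nat.modEq_zero_iff_dvd).1 (h7.trans (by simp [Nat.ModEq]))
      exact_mod_cast h8
    have : Fact q.Prime := ⟨hq⟩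
    have hqodd : Odd q := Nat.odd_iff.2 (by omega)
    -- `-m` is a square modulo q
    have h6 : jacobiSym (-(m : ℤ)) q = 1 := by
      rw [jacobiSym.neg _ hqodd, ZMod.χ₄_nat_one_mod_four hq4, one_mul,
        jacobiSym.quadratic_reciprocity_one_mod_four hm hqodd]
      have h9 : jacobiSym (q : ℤ) m = jacobiSym (-1) m := by
        apply jacobiSym.mod_left'
        apply Int.emod_eq_emod_iff_emod_sub_eq_zero.2
        apply Int.emod_eq_zero_of_dvd
        simpa using hdvd
      rw [h9, jacobiSym.at_neg_one hmodd, ZMod.χ₄_nat_one_mod_four hm]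
    have h7 := ZMod.isSquare_of_jacobiSym_eq_one h6
    obtain ⟨b, hb⟩ : ∃ b : ℤ, (q : ℤ) ∣ b ^ 2 + m := by
      obtain ⟨t, ht⟩ := h7
      refine ⟨t.val, ?_⟩
      rw [← ZMod.intCast_zmod_eq_zero_iff_dvd]
      push_cast
      rw [ZMod.natCast_zmod_val]
      push_cast at ht
      linear_combination -ht
    obtain ⟨c, hc⟩ := hb
    obtain ⟨l, hl⟩ := hdvd
    have hm0' : (0 : ℤ) < m := by omega
    set s : St := ⟨q, b, 0, c, 1, l, 0, 0, 1⟩ with hs
    have hD : s.D2 = m := by
      simp only [D2, hs]; linarith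
    have hdet : s.det = 1 := by
      simp only [det, hs]
      have : (q : ℤ) * c * l + 2 * b * 0 * 1 - q * 1 ^ 2 - b ^ 2 * l - 0 ^ 2 * c
        = (q * c - b ^ 2) * l - q := by ring
      rw [this]
      have h8 : (q : ℤ) * c - b ^ 2 = m := by linarith
      rw [h8]; linarith
    have hQ : s.Q = m := by
      simp only [Q, hs]; linarith
    have hg : Good (m : ℤ) (max (q : ℤ) (max c l)) s :=
      ⟨by simp only [hs]; exact_mod_cast hq.pos, by rw [hD]; exact hm0', hdet, hQ,
        le_max_left _ _, (le_max_left _ _).trans (le_max_right _ _),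
        (le_max_right _ _).trans (le_max_right _ _)⟩
    exact exists_sq hg
  · have : m = 1 := by omega
    subst this
    exact ⟨1, 0, 0, by norm_num⟩

end Pool.Agent.H141R2.FS
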