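import Pool.Agent.H483R2.ED_BHK

/-!
# Weighted Brun-Hooley lower bound sieve with an error term on average
-/

set_option autoImplicit false

open Finset

namespace Pool.Agent.H141R2.FS

open Pool.Agent.Helper112.LP Pool.Agent.Helper112.LP.Kba Pool.Agent.Helper112.LP.Kbh
open Pool.Agent.H483R2.BHKD Pool.Agent.H410R2.ED

theorem wexp (m : ℕ) (g : ℕ → ℝ) (S : Finset ℕ) (f : ℕ → ℕ) (w : ℕ → ℝ) (X : ℝ)
    (err : Finset ℕ → ℝ)
    (F : Fin m → Finset (Finset ℕ)) (c : Fin m → Finset ℕ → ℝ) (hc : ∀ i U, |c i U| ≤ 1)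
    (H : ∀ T ∈ Fintype.piFinset F,
      |(∑ ω ∈ S.filter (fun ω => ∀ i, ∀ l ∈ T i, l ∣ f ω), w ω) - X * ∏ i, ∏ l ∈ T i, g l|
        ≤ err (bhU T)) :
    |(∑ ω ∈ S, w ω * ∏ i, ∑ U ∈ F i, if ∀ l ∈ U, l ∣ f ω then c i U else 0) -
      X * ∏ i, ∑ U ∈ F i, c i U * ∏ l ∈ U, g l| ≤ ∑ T ∈ Fintype.piFinset F, err (bhU T) := by
  have h1 : (∑ ω ∈ S, w ω * ∏ i, ∑ U ∈ F i, if ∀ l ∈ U, l ∣ f ω then c i U else 0) =
      ∑ T ∈ Fintype.piFinset F, (∏ i, c i (T i)) *
        (∑ ω ∈ S.filter (fun ω => ∀ i, ∀ l ∈ T i, l ∣ f ω), w ω) := by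
    have h2 : ∀ ω ∈ S, (w ω * ∏ i, ∑ U ∈ F i, if ∀ l ∈ U, l ∣ f ω then c i U else 0) =
        ∑ T ∈ Fintype.piFinset F, (∏ i, c i (T i)) *
          (if ∀ i, ∀ l ∈ T i, l ∣ f ω then w ω else 0) := by
      intro ω _
      rw [prod_univ_sum, mul_sum]
      apply sum_congr rfl
      intro T _
      rw [Fintype.prod_ite_zero]
      split_ifs
      · ring
      · ring
    rw [sum_congr rfl h2, sum_comm]
    apply sum_congr rfl
    intro T _
    rw [← mul_sum, sum_filter]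
  have h3 : X * ∏ i, ∑ U ∈ F i, c i U * ∏ l ∈ U, g l =
      ∑ T ∈ Fintype.piFinset F, (∏ i, c i (T i)) * (X * ∏ i, ∏ l ∈ T i, g l) := by
    rw [prod_univ_sum, mul_sum]
    apply sum_congr rfl
    intro T _
    rw [prod_mul_distrib]
    ring
  rw [h1, h3, ← sum_sub_distrib]
  refine (abs_sum_le_sum_abs _ _).trans ?_
  apply sum_le_sum
  intro T hT
  rw [← mul_sub, abs_mul]
  have h4 : |∏ i, c i (T i)| ≤ 1 := by
    rw [abs_prod]
    exact prod_le_one (fun _ _ => abs_nonneg _) (fun i _ => hc i (T i))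
  have h5 := H T hT
  calc |∏ i, c i (T i)| * |(∑ ω ∈ S.filter (fun ω => ∀ i, ∀ l ∈ T i, l ∣ f ω), w ω) -
        X * ∏ i, ∏ l ∈ T i, g l| ≤ 1 * err (bhU T) :=
        mul_le_mul h4 h5 (abs_nonneg _) zero_le_one
    _ = err (bhU T) := one_mul _

theorem wabs (m : ℕ) (P : Fin m → Finset ℕ)
    (b : Fin m → ℕ) (hb : ∀ i, Even (b i)) (g : ℕ → ℝ)
    (S : Finset ℕ) (f : ℕ → ℕ) (w : ℕ → ℝ) (hw : ∀ n ∈ S, 0 ≤ w n) (X : ℝ)
    (err : Finset ℕ → ℝ) (E : ℝ)
    (H : ∀ T : Fin m → Finset ℕ, (∀ i, T i ⊆ P i) → (∀ i, (T i).card ≤ b i + 1) →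
      |(∑ ω ∈ S.filter (fun ω => ∀ i, ∀ l ∈ T i, l ∣ f ω), w ω) - X * ∏ i, ∏ l ∈ T i, g l|
        ≤ err (bhU T))
    (HE : ∀ F : Fin m → Finset (Finset ℕ), (∀ i, ∀ U ∈ F i, U ⊆ P i ∧ U.card ≤ b i + 1) →
      ∑ T ∈ Fintype.piFinset F, err (bhU T) ≤ E) :
    X * ((∏ i, ∑ U ∈ (P i).powerset.filter (fun U => U.card ≤ b i), (-1) ^ U.card * ∏ l ∈ U, g l)
      - ∑ k, (∑ U ∈ (P k).powersetCard (b k + 1), ∏ l ∈ U, g l) *
        ∏ i ∈ univ.erase k, ∑ U ∈ (P i).powerset.filter (fun U => U.card ≤ b i),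
          (-1) ^ U.card * ∏ l ∈ U, g l)
      - (m + 1) * E ≤
      ∑ ω ∈ S.filter (fun ω => ∀ i, ∀ l ∈ P i, ¬ l ∣ f ω), w ω := by
  classical
  set x : ℕ → Fin m → ℝ := fun ω i => if ∀ l ∈ P i, ¬ l ∣ f ω then (1 : ℝ) else 0 with hx
  set y : ℕ → Fin m → ℝ := fun ω i => ∑ U ∈ (P i).powerset.filter (fun U => U.card ≤ b i),
        if ∀ l ∈ U, l ∣ f ω then ((-1 : ℝ)) ^ U.card else 0 with hy
  set e : ℕ → Fin m → ℝ := fun ω i => ∑ U ∈ powersetCard (b i + 1) (P i),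
        if ∀ l ∈ U, l ∣ f ω then (1 : ℝ) else 0 with he
  have hloc : ∀ ω i, 0 ≤ x ω i ∧ x ω i ≤ y ω i ∧ y ω i - x ω i ≤ e ω i := fun ω i =>
    bh_local (P i) (b i) (hb i) (f ω)
  set Tr : Fin m → ℝ := fun i => ∑ U ∈ (P i).powerset.filter (fun U => U.card ≤ b i),
    (-1) ^ U.card * ∏ l ∈ U, g l with hTr
  set Er : Fin m → ℝ := fun i => ∑ U ∈ (P i).powersetCard (b i + 1), ∏ l ∈ U, g l with hEr
  have hcard : (∑ ω ∈ S.filter (fun ω => ∀ i, ∀ l ∈ P i, ¬ l ∣ f ω), w ω) =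
      ∑ ω ∈ S, w ω * ∏ i, x ω i := by
    rw [sum_filter]
    apply sum_congr rfl
    intro ω _
    simp only [hx]
    rw [Fintype.prod_ite_zero]
    split_ifs <;> simp
  -- (a)
  have hA : |(∑ ω ∈ S, w ω * ∏ i, y ω i) - X * ∏ i, Tr i| ≤ E := by
    have h1 := wexp m g S f w X err
      (fun i => (P i).powerset.filter (fun U => U.card ≤ b i)) (fun _ U => (-1) ^ U.card)
      (by intro i U; rw [abs_neg_one_pow]) (by
        intro T hT
        rw [Fintype.mem_piFinset] at hT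
        apply H T
        · intro i
          have := hT i
          rw [mem_filter, mem_powerset] at this
          exact this.1
        · intro i
          have := hT i
          rw [mem_filter, mem_powerset] at this
          exact this.2.trans (Nat.le_succ _))
    refine h1.trans ?_
    apply HE
    intro i U hU
    rw [mem_filter, mem_powerset] at hU
    exact ⟨hU.1, hU.2.trans (Nat.le_succ _)⟩
  -- (b)
  have hB : ∀ k : Fin m, |(∑ ω ∈ S, w ω * (e ω k * ∏ i ∈ univ.erase k, y ω i)) -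
      X * (Er k * ∏ i ∈ univ.erase k, Tr i)| ≤ E := by
    intro k
    have h1 := wexp m g S f w X err
      (fun i => if i = k then powersetCard (b i + 1) (P i) else
        (P i).powerset.filter (fun U => U.card ≤ b i))
      (fun i U => if i = k then 1 else (-1) ^ U.card)
      (by intro i U; split_ifs <;> simp) (by
        intro T hT
        rw [Fintype.mem_piFinset] at hT
        apply H T
        · intro i
          have := hT i
          split_ifs at this with hik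
          · rw [mem_powersetCard] at this
            exact this.1
          · rw [mem_filter, mem_powerset] at this
            exact this.1
        · intro i
          have := hT i
          split_ifs at this with hik
          · rw [mem_powersetCard] at this
            exact this.2.le
          · rw [mem_filter, mem_powerset] at this
            exact this.2.trans (Nat.le_succ _))
    have h2 : ∀ f1 f2 : Fin m → ℝ, (∏ i, if i = k then f1 i else f2 i) =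
        f1 k * ∏ i ∈ univ.erase k, f2 i := by
      intro f1 f2
      rw [← mul_prod_erase univ _ (mem_univ k), if_pos rfl]
      congr 1
      apply prod_congr rfl
      intro i hi
      rw [if_neg (ne_of_mem_erase hi)]
    have h3 : (∑ ω ∈ S, w ω * (e ω k * ∏ i ∈ univ.erase k, y ω i)) =
        ∑ ω ∈ S, w ω * ∏ i, ∑ U ∈ (if i = k then powersetCard (b i + 1) (P i) else
        (P i).powerset.filter (fun U => U.card ≤ b i)), if ∀ l ∈ U, l ∣ f ω then
          (if i = k then (1 : ℝ) else (-1) ^ U.card) else 0 := by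
      apply sum_congr rfl
      intro ω _
      rw [← h2 (e ω) (y ω)]
      congr 1
      apply prod_congr rfl
      intro i _
      by_cases hik : i = k
      · simp only [if_pos hik, he]
      · simp only [if_neg hik, hy]
    have h4 : X * (Er k * ∏ i ∈ univ.erase k, Tr i) =
        X * ∏ i, ∑ U ∈ (if i = k then powersetCard (b i + 1) (P i) else
        (P i).powerset.filter (fun U => U.card ≤ b i)),
          (if i = k then (1 : ℝ) else (-1) ^ U.card) * ∏ l ∈ U, g l := by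
      rw [← h2 Er Tr]
      congr 1
      apply prod_congr rfl
      intro i _
      by_cases hik : i = k
      · simp only [if_pos hik, hEr, one_mul]
      · simp only [if_neg hik, hTr]
    rw [h3, h4]
    refine h1.trans ?_
    apply HE
    intro i U hU
    split_ifs at hU with hik
    · rw [mem_powersetCard] at hU
      exact ⟨hU.1, hU.2.le⟩
    · rw [mem_filter, mem_powerset] at hU
      exact ⟨hU.1, hU.2.trans (Nat.le_succ _)⟩
  rw [hcard]
  have h1 : ∑ ω ∈ S, w ω * ∏ i, y ω i - ∑ ω ∈ S, w ω * ∏ i, x ω i ≤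
      ∑ k, ∑ ω ∈ S, w ω * (e ω k * ∏ i ∈ univ.erase k, y ω i) := by
    rw [sum_comm, ← sum_sub_distrib]
    apply sum_le_sum
    intro ω hω
    rw [← mul_sub, ← mul_sum]
    apply mul_le_mul_of_nonneg_left _ (hw ω hω)
    exact bh_prod_sub univ (x ω) (y ω) (e ω) (fun i => (hloc ω i).1) (fun i => (hloc ω i).2.1)
      (fun i => (hloc ω i).2.2)
  have h2 : ∑ k, ∑ ω ∈ S, w ω * (e ω k * ∏ i ∈ univ.erase k, y ω i) ≤
      ∑ k : Fin m, (X * (Er k * ∏ i ∈ univ.erase k, Tr i) + E) := by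
    apply sum_le_sum
    intro k _
    have := (abs_le.1 (hB k)).2
    linarith
  rw [sum_add_distrib, sum_const, card_univ, Fintype.card_fin, nsmul_eq_mul, ← mul_sum] at h2
  have h3 := (abs_le.1 hA).1
  have h4 : X * ((∏ i, Tr i) - ∑ k, Er k * ∏ i ∈ univ.erase k, Tr i) - (m + 1) * E =
    X * (∏ i, Tr i) - E - (X * (∑ k, Er k * ∏ i ∈ univ.erase k, Tr i) + m * E) := by
    ring
  rw [h4]
  linarith

/-- the groups determine the set -/
theorem bhU_inj {J : ℕ} {T T' : Fin J → Finset ℕ} (hT : ∀ i, T i ⊆ Gj ((i : ℕ) + 1))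
    (hT' : ∀ i, T' i ⊆ Gj ((i : ℕ) + 1)) (h : bhU T = bhU T') : T = T' := by
  have key : ∀ {T T' : Fin J → Finset ℕ}, (∀ i, T i ⊆ Gj ((i : ℕ) + 1)) →
      (∀ i, T' i ⊆ Gj ((i : ℕ) + 1)) → bhU T = bhU T' → ∀ i, T i ⊆ T' i := by
    intro T T' hT hT' h i l hl
    have h1 : l ∈ bhU T' := by
      rw [← h]; exact mem_biUnion.2 ⟨i, mem_univ _, hl⟩
    obtain ⟨j, _, hj⟩ := mem_biUnion.1 h1
    have h2 := bh_Gj_disj (hT i hl) (hT' j hj)
    have h3 : i = j := Fin.ext h2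
    rwa [h3]
  funext i
  exact Subset.antisymm (key hT hT' h i) (key hT' hT h.symm i)

/-- the level -/
theorem level (κ J b0 : ℕ) (T : Fin J → Finset ℕ) (hT : ∀ i, T i ⊆ Gk κ (i : ℕ))
    (hc : ∀ i, (T i).card ≤ b0 + 2 * (J - 1 - (i : ℕ)) + 1) :
    ∏ l ∈ bhU T, l ≤ (2 ^ 2 ^ J) ^ (2 * b0 + 6) := by
  have hTG : ∀ i, T i ⊆ Gj ((i : ℕ) + 1) := fun i => (hT i).trans (Gk_sub κ i)
  rw [← bh_pT_eq T hTG (fun l => l)]
  calc ∏ i, ∏ l ∈ T i, l ≤ ∏ i : Fin J, (2 ^ 2 ^ ((i : ℕ) + 1)) ^ (b0 + 2 * (J - 1 - (i : ℕ)) + 1) := by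
        apply prod_le_prod' 
        intro i _
        calc ∏ l ∈ T i, l ≤ ∏ l ∈ T i, 2 ^ 2 ^ ((i : ℕ) + 1) :=
              prod_le_prod' fun l hl => (bh_Gj_mem (hTG i hl)).2.2.le
          _ = (2 ^ 2 ^ ((i : ℕ) + 1)) ^ (T i).card := by rw [prod_const]
          _ ≤ _ := Nat.pow_le_pow_right (Nat.one_le_two_pow) (hc i)
    _ = 2 ^ (∑ i : Fin J, 2 ^ ((i : ℕ) + 1) * (b0 + 2 * (J - 1 - (i : ℕ)) + 1)) := by
        rw [← prod_pow_eq_pow_sum]
        refine prod_congr rfl fun i _ => ?_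
        rw [← pow_mul]
    _ ≤ 2 ^ (2 ^ J * (2 * b0 + 6)) := by
        apply Nat.pow_le_pow_right (by norm_num)
        rw [Fin.sum_univ_eq_sum_range (fun i => 2 ^ (i + 1) * (b0 + 2 * (J - 1 - i) + 1))]
        have h1 := bh_sum_aux b0 J
        have h2 : ∑ i ∈ range J, 2 ^ (i + 1) * (b0 + 2 * (J - 1 - i) + 1) =
            ∑ i ∈ range J, 2 ^ (i + 1) * (b0 + 2 * (J - 1 - i)) + 2 * ∑ i ∈ range J, 2 ^ i := by
          rw [mul_sum, ← sum_add_distrib]
          refine sum_congr rfl fun i _ => ?_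
          ring
        have h3 : ∑ i ∈ range J, 2 ^ i = 2 ^ J - 1 := by
          have := Nat.geomSum_eq (le_refl 2) J
          simpa using this
        have h4 : 1 ≤ 2 ^ J := Nat.one_le_two_pow
        rw [h2, h3]
        generalize 2 ^ J = y at *
        obtain ⟨y, rfl⟩ : ∃ w, y = w + 1 := ⟨y - 1, by omega⟩
        simp only [Nat.add_sub_cancel]
        nlinarith
    _ = _ := by rw [← pow_mul]

/-- **Weighted Brun-Hooley lower bound**, dimension `κ`, error on average. -/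
theorem wbhk (κ : ℕ) (hκ : 1 ≤ κ) : ∃ c : ℕ, 1 ≤ c ∧ ∃ v : ℝ, 0 < v ∧ v ≤ 1 ∧ ∀ g : ℕ → ℝ,
    (∀ l, l.Prime → 2 * κ < l → 0 ≤ g l ∧ g l ≤ (κ : ℝ) / l) →
    ∀ (J : ℕ) (S : Finset ℕ) (f : ℕ → ℕ) (w : ℕ → ℝ) (X : ℝ) (err : Finset ℕ → ℝ), 0 ≤ X →
    (∀ n ∈ S, 0 ≤ w n) → (∀ D, 0 ≤ err D) →
    (∀ D ⊆ Pr κ J, ∏ l ∈ D, l ≤ (2 ^ 2 ^ J) ^ c →
      |(∑ n ∈ S.filter (fun n => ∀ l ∈ D, l ∣ f n), w n) - X * ∏ l ∈ D, g l| ≤ err D) →
    X / 2 * v ^ J - (J + 1) *
      ∑ D ∈ (Pr κ J).powerset.filter (fun D => ∏ l ∈ D, l ≤ (2 ^ 2 ^ J) ^ c), err D ≤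
    ∑ n ∈ S.filter (fun n => ∀ l ∈ Pr κ J, ¬ l ∣ f n), w n := by
  classical
  obtain ⟨CM, hCM, hM⟩ := mertens_group
  set L : ℝ := Real.log 2 + CM with hLdef
  have hlog2 : 0 < Real.log 2 := Real.log_pos (by norm_num)
  have hL0 : 0 < L := by rw [hLdef]; linarith
  have hLs : ∀ i : ℕ, ∑ l ∈ Gj (i + 1), (1 : ℝ) / l ≤ L := by
    intro i
    have h1 := (abs_le.1 (hM (i + 1) (by omega))).2
    have h2 : CM / 2 ^ (i + 1) ≤ CM := div_le_self hCM.le (one_le_pow₀ (by norm_num))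
    rw [hLdef]; linarith
  obtain ⟨N, hN⟩ := exists_nat_ge (11 * L)
  have hκ0 : (0 : ℝ) < κ := by exact_mod_cast hκ
  set b0 : ℕ := 2 * ((N + 1) * κ) with hb0
  have hb02 : 2 ≤ b0 := by
    rw [hb0]; nlinarith
  have hb0e : Even b0 := even_two_mul _
  have hb0L : 21 * (κ * L) ≤ (b0 : ℝ) := by
    rw [hb0]; push_cast
    nlinarith
  set v : ℝ := Real.exp (-(2 * (κ * L))) with hv
  have hv0 : 0 < v := Real.exp_pos _
  have hv1 : v ≤ 1 := by
    rw [hv, Real.exp_le_one_iff]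
    have : 0 ≤ κ * L := by positivity
    linarith
  refine ⟨2 * b0 + 6, by omega, v, hv0, hv1, ?_⟩
  intro g hg J S f w X err hX hw herr0 hyp
  set b : Fin J → ℕ := fun i => b0 + 2 * (J - 1 - (i : ℕ)) with hbdef
  set P : Fin J → Finset ℕ := fun i => Gk κ (i : ℕ) with hPdef
  have hPG : ∀ i, P i ⊆ Gj ((i : ℕ) + 1) := fun i => Gk_sub κ i
  have hPp : ∀ i, ∀ l ∈ P i, l.Prime := fun i l hl => (bh_Gj_mem (hPG i hl)).1
  have hPk : ∀ i, ∀ l ∈ P i, 2 * κ < l := fun i l hl => (mem_filter.1 hl).2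
  have hb : ∀ i, Even (b i) := fun i => hb0e.add (even_two_mul _)
  set E : ℝ := ∑ D ∈ (Pr κ J).powerset.filter
    (fun D => ∏ l ∈ D, l ≤ (2 ^ 2 ^ J) ^ (2 * b0 + 6)), err D with hE
  have H : ∀ T : Fin J → Finset ℕ, (∀ i, T i ⊆ P i) → (∀ i, (T i).card ≤ b i + 1) →
      |(∑ ω ∈ S.filter (fun ω => ∀ i, ∀ l ∈ T i, l ∣ f ω), w ω) - X * ∏ i, ∏ l ∈ T i, g l|
        ≤ err (bhU T) := by
    intro T hT hc
    have hTG : ∀ i, T i ⊆ Gj ((i : ℕ) + 1) := fun i => (hT i).trans (hPG i)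
    have hD : bhU T ⊆ Pr κ J := by
      rw [← Pr_eq]
      exact bhU_mono T P hT
    have h1 := hyp (bhU T) hD (level κ J b0 T hT hc)
    rw [bh_pT_eq T hTG g]
    have h2 : (S.filter (fun ω => ∀ i, ∀ l ∈ T i, l ∣ f ω)) =
        S.filter (fun ω => ∀ l ∈ bhU T, l ∣ f ω) := by
      refine filter_congr fun ω _ => ?_
      exact all_bhU T (fun l => l ∣ f ω)
    rw [h2]
    exact h1
  have HE : ∀ F : Fin J → Finset (Finset ℕ), (∀ i, ∀ U ∈ F i, U ⊆ P i ∧ U.card ≤ b i + 1) →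
      ∑ T ∈ Fintype.piFinset F, err (bhU T) ≤ E := by
    intro F hF
    have hinj : Set.InjOn (bhU : (Fin J → Finset ℕ) → Finset ℕ)
        (Fintype.piFinset F : Set (Fin J → Finset ℕ)) := by
      intro T hT T' hT' h
      rw [mem_coe, Fintype.mem_piFinset] at hT hT'
      exact bhU_inj (fun i => ((hF i _ (hT i)).1).trans (hPG i))
        (fun i => ((hF i _ (hT' i)).1).trans (hPG i)) h
    rw [← sum_image (f := err) hinj]
    apply sum_le_sum_of_subset_of_nonneg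
    · intro D hD
      obtain ⟨T, hT, rfl⟩ := mem_image.1 hD
      rw [Fintype.mem_piFinset] at hT
      rw [mem_filter, mem_powerset]
      refine ⟨?_, level κ J b0 T (fun i => (hF i _ (hT i)).1) (fun i => (hF i _ (hT i)).2)⟩
      rw [← Pr_eq]
      exact bhU_mono T P fun i => (hF i _ (hT i)).1
    · intro D _ _
      exact herr0 D
  have hmain := wabs J P b hb g S f w hw X err E H HE
  have hSf : (S.filter (fun ω => ∀ i, ∀ l ∈ P i, ¬ l ∣ f ω)) =
      S.filter (fun ω => ∀ l ∈ Pr κ J, ¬ l ∣ f ω) := by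
    refine filter_congr fun ω _ => ?_
    rw [← Pr_eq]
    exact all_bhU P (fun l => ¬ l ∣ f ω)
  rw [hSf] at hmain
  set V : Fin J → ℝ := fun i => ∏ l ∈ P i, (1 - g l) with hVdef
  set Tr : Fin J → ℝ := fun i => bhA g (b i) (P i) with hTr
  set Er : Fin J → ℝ := fun i => bhE g (b i + 1) (P i) with hEr
  have hTrdef : ∀ i, ∑ U ∈ (P i).powerset.filter (fun U => U.card ≤ b i),
      (-1) ^ U.card * ∏ l ∈ U, g l = Tr i := fun i => rfl
  have hErdef : ∀ i, ∑ U ∈ (P i).powersetCard (b i + 1), ∏ l ∈ U, g l = Er i := fun i => rfl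
  simp only [hTrdef, hErdef] at hmain
  have hgk : ∀ i, ∀ l ∈ P i, g l ≤ 1 / 2 := by
    intro i l hl
    have h1 := (hg l (hPp i l hl) (hPk i l hl)).2
    have h2 : 2 * (κ : ℝ) < l := by exact_mod_cast hPk i l hl
    have h3 : (0 : ℝ) < l := by linarith
    refine h1.trans ?_
    rw [div_le_iff₀ h3]
    linarith
  have hgb : ∀ i, ∀ l ∈ P i, 0 ≤ g l ∧ g l ≤ 1 := fun i l hl =>
    ⟨(hg l (hPp i l hl) (hPk i l hl)).1, by linarith [hgk i l hl]⟩
  have hbonf : ∀ i, V i ≤ Tr i ∧ Tr i ≤ V i + Er i := by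
    intro i
    have h := bh_bonf g (P i) (hgb i) (b i)
    rw [(hb i).neg_one_pow, one_mul] at h
    constructor
    · have := h.1; simp only [hVdef, hTr]; linarith
    · have := h.2; simp only [hVdef, hTr, hEr]; linarith
  have hgsum : ∀ i, ∑ l ∈ P i, g l ≤ κ * L := by
    intro i
    calc ∑ l ∈ P i, g l ≤ ∑ l ∈ P i, (κ : ℝ) * (1 / (l : ℝ)) := by
          apply sum_le_sum
          intro l hl
          have := (hg l (hPp i l hl) (hPk i l hl)).2
          rw [mul_one_div]; exact this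
      _ = κ * ∑ l ∈ P i, 1 / (l : ℝ) := by rw [mul_sum]
      _ ≤ κ * ∑ l ∈ Gj ((i : ℕ) + 1), 1 / (l : ℝ) := by
          apply mul_le_mul_of_nonneg_left _ hκ0.le
          apply sum_le_sum_of_subset_of_nonneg (hPG i)
          intro l _ _
          positivity
      _ ≤ κ * L := mul_le_mul_of_nonneg_left (hLs i) hκ0.le
  have hVv : ∀ i, v ≤ V i := by
    intro i
    have h1 : Real.exp (-(2 * ∑ l ∈ P i, g l)) ≤ V i := by
      have h2 : -(2 * ∑ l ∈ P i, g l) = ∑ l ∈ P i, -(2 * g l) := by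
        rw [mul_sum, ← sum_neg_distrib]
      rw [h2, Real.exp_sum]
      refine prod_le_prod (fun l _ => (Real.exp_pos _).le) fun l hl => ?_
      exact bh_inv_ge (hgb i l hl).1 (hgk i l hl)
    refine le_trans ?_ h1
    rw [hv]
    exact Real.exp_le_exp.2 (by linarith [hgsum i])
  have hEr0 : ∀ i, 0 ≤ Er i := fun i => bhE_nonneg _ _ _ fun l hl => (hgb i l hl).1
  have hErle : ∀ i, Er i ≤ (κ * L) ^ (b i + 1) / (b i + 1).factorial := by
    intro i
    refine (bhE_le g (P i) (fun l hl => (hgb i l hl).1) (b i + 1)).trans ?_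
    have h0 : 0 ≤ ∑ l ∈ P i, g l := sum_nonneg fun l hl => (hgb i l hl).1
    have h1 := hgsum i
    gcongr
  have hErv : ∀ i, Er i / v ≤ (1 / 2) ^ (b i + 1) := by
    intro i
    have h1 : Er i / v = Er i * Real.exp (2 * (κ * L)) := by
      rw [hv, Real.exp_neg, div_inv_eq_mul]
    rw [h1]
    refine le_trans (mul_le_mul_of_nonneg_right (hErle i) (Real.exp_pos _).le) ?_
    apply tail_one (κ * L) (by positivity) (b i + 1) (by omega)
    have h2 : (b0 : ℝ) ≤ ((b i + 1 : ℕ) : ℝ) := by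
      have : b0 ≤ b i + 1 := by simp only [hbdef]; omega
      exact_mod_cast this
    linarith
  have hErsum : ∑ i, Er i / v ≤ 1 / 2 :=
    le_trans (sum_le_sum fun i _ => hErv i) (tail_sum b0 J hb02)
  have hV0 : ∀ i, 0 < V i := fun i => lt_of_lt_of_le hv0 (hVv i)
  have hTr0 : ∀ i, 0 < Tr i := fun i => lt_of_lt_of_le (hV0 i) (hbonf i).1
  refine le_trans ?_ hmain
  have hB : (1 / 2) * v ^ J ≤ (∏ i, Tr i) - ∑ k, Er k * ∏ i ∈ univ.erase k, Tr i := by
    have hTp : v ^ J ≤ ∏ i, Tr i := by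
      calc v ^ J = ∏ i : Fin J, v := by simp
        _ ≤ ∏ i, Tr i := prod_le_prod (fun i _ => hv0.le)
          fun i _ => (hVv i).trans (hbonf i).1
    have hk : ∀ k, Er k * ∏ i ∈ univ.erase k, Tr i ≤ Er k / v * ∏ i, Tr i := by
      intro k
      have h1 : ∏ i, Tr i = Tr k * ∏ i ∈ univ.erase k, Tr i :=
        (mul_prod_erase univ Tr (mem_univ k)).symm
      have h2 : 0 ≤ ∏ i ∈ univ.erase k, Tr i := prod_nonneg fun i _ => (hTr0 i).le
      rw [h1, div_mul_eq_mul_div, le_div_iff₀ hv0]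
      have h3 : v ≤ Tr k := (hVv k).trans (hbonf k).1
      have h4 : Er k * (∏ i ∈ univ.erase k, Tr i) * v ≤
          Er k * (∏ i ∈ univ.erase k, Tr i) * Tr k :=
        mul_le_mul_of_nonneg_left h3 (mul_nonneg (hEr0 k) h2)
      linarith
    have hsum : ∑ k, Er k * ∏ i ∈ univ.erase k, Tr i ≤ (1 / 2) * ∏ i, Tr i := by
      calc ∑ k, Er k * ∏ i ∈ univ.erase k, Tr i ≤ ∑ k, Er k / v * ∏ i, Tr i :=
            sum_le_sum fun k _ => hk k
        _ = (∑ k, Er k / v) * ∏ i, Tr i := by rw [← sum_mul]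
        _ ≤ (1 / 2) * ∏ i, Tr i :=
            mul_le_mul_of_nonneg_right hErsum (prod_nonneg fun i _ => (hTr0 i).le)
    linarith
  have hC : X / 2 * v ^ J ≤
      X * ((∏ i, Tr i) - ∑ k, Er k * ∏ i ∈ univ.erase k, Tr i) := by
    have := mul_le_mul_of_nonneg_left hB hX
    calc X / 2 * v ^ J = X * (1 / 2 * v ^ J) := by ring
      _ ≤ _ := this
  linarith

end Pool.Agent.H141R2.FS
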